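import Mathlib
import Pool.Agent.H940R2.Koszul

/-!
Wedge operators, a vanishing lemma of Green type, leading positions and a double count.
-/

namespace Pool.Agent.H631Z.Ver

open MvPolynomial Finset
open Pool.Agent.H940R2 (sg sg_anti sg_ne_zero)

section anti

variable {J K N : Type*} [LinearOrder J] [Field K] [AddCommGroup N] [Module K N]

lemma anti_sum [Fintype J] (F : Finset J) (T : J → J → N) :
    ∑ c ∈ F, ∑ b ∈ F.erase c, (sg K (F.erase c) c * sg K ((F.erase c).erase b) b) • T c b =
      - ∑ b ∈ F, ∑ c ∈ F.erase b, (sg K (F.erase b) b * sg K ((F.erase b).erase c) c) • T c b := by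
  rw [Finset.sum_comm' (t' := F) (s' := fun b => F.erase b)]
  · rw [← Finset.sum_neg_distrib]
    refine Finset.sum_congr rfl fun b hb => ?_
    rw [← Finset.sum_neg_distrib]
    refine Finset.sum_congr rfl fun c hc => ?_
    rw [Finset.mem_erase] at hc
    rw [← neg_smul]
    congr 1
    set G := (F.erase b).erase c with hG
    have hbG : b ∉ G := by simp [hG]
    have hcG : c ∉ G := by simp [hG]
    have e1 : F.erase c = insert b G := by
      ext x
      simp only [hG, Finset.mem_erase, Finset.mem_insert]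
      constructor
      · rintro ⟨h1, h2⟩
        by_cases hx : x = b
        · exact Or.inl hx
        · exact Or.inr ⟨h1, hx, h2⟩
      · rintro (rfl | ⟨h1, _, h2⟩)
        · exact ⟨Ne.symm hc.1, hb⟩
        · exact ⟨h1, h2⟩
    have e2 : F.erase b = insert c G := by
      rw [hG, Finset.insert_erase (Finset.mem_erase.mpr hc)]
    have e3 : (F.erase c).erase b = G := by
      rw [hG, Finset.erase_right_comm]
    rw [e3, e1, e2]
    have h := sg_anti (K := K) G hbG hcG (Ne.symm hc.1)
    linear_combination h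
  · intro x y
    simp only [Finset.mem_erase]
    constructor
    · rintro ⟨h1, h2, h3⟩
      exact ⟨⟨Ne.symm h2, h1⟩, h3⟩
    · rintro ⟨⟨h1, h2⟩, h3⟩
      exact ⟨h2, Ne.symm h1, h3⟩

end anti

section wedge

variable {J K A : Type*} [LinearOrder J] [Field K] [CommRing A] [Algebra K A]

variable (K) in
/-- wedge product with a vector -/
def wedge (ξ : J → A) (g : Finset J → A) (F : Finset J) : A :=
  ∑ b ∈ F, sg K (F.erase b) b • (ξ b * g (F.erase b))

lemma wedge_anti [Fintype J] (ξ η : J → A) (g : Finset J → A) (F : Finset J) :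
    wedge K ξ (wedge K η g) F = - wedge K η (wedge K ξ g) F := by
  have h := anti_sum (K := K) F (fun c b => ξ c * (η b * g ((F.erase c).erase b)))
  simp only [wedge, Finset.mul_sum, Finset.smul_sum]
  have e1 : ∑ c ∈ F, ∑ b ∈ F.erase c, sg K (F.erase c) c •
      (ξ c * sg K ((F.erase c).erase b) b • (η b * g ((F.erase c).erase b))) =
      ∑ c ∈ F, ∑ b ∈ F.erase c, (sg K (F.erase c) c * sg K ((F.erase c).erase b) b) •
        (ξ c * (η b * g ((F.erase c).erase b))) := by
    refine Finset.sum_congr rfl fun c _ => Finset.sum_congr rfl fun b _ => ?_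
    rw [mul_smul_comm, smul_smul]
  rw [e1, h]
  congr 1
  refine Finset.sum_congr rfl fun b _ => Finset.sum_congr rfl fun c _ => ?_
  rw [mul_smul_comm, smul_smul, Finset.erase_right_comm (a := c) (b := b)]
  congr 1
  ring

end wedge

section vanish

variable {J σ K : Type*} [Fintype J] [LinearOrder J] [Field K] [Infinite K]

theorem vanish (S : Fin 2 → Finset J) (ex : J → (σ →₀ ℕ)) (hex : Function.Injective ex) (h : ℕ) :
    ∀ (M : Submodule K (MvPolynomial σ K)) [FiniteDimensional K M],
      Module.finrank K M ≤ h → ∀ (g : Finset J → MvPolynomial σ K), (∀ F, g F ∈ M) →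
      (∀ (i : Fin 2) (F : Finset J),
        wedge K (fun b => if b ∈ S i then monomial (ex b) (1 : K) else 0) g F = 0) →
      ∀ F0, g F0 ≠ 0 → ((S 0 ∪ S 1) \ F0).card < h := by
  classical
  induction h with
  | zero =>
    intro M _ hM g hg _ F0 hF0
    have hbot : M = ⊥ := by
      apply Submodule.finrank_eq_zero.mp
      omega
    have := hg F0
    rw [hbot, Submodule.mem_bot] at this
    exact absurd this hF0
  | succ h ih =>
    intro M _ hM g hg hcyc F0 hF0
    rcases ((S 0 ∪ S 1) \ F0).eq_empty_or_nonempty with he | ⟨b0, hb0⟩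
    · rw [he]; simp
    rw [Finset.mem_sdiff] at hb0
    obtain ⟨i, hi⟩ : ∃ i, b0 ∈ S i := by
      rcases Finset.mem_union.mp hb0.1 with h' | h'
      · exact ⟨0, h'⟩
      · exact ⟨1, h'⟩
    obtain ⟨u, hu⟩ := MvPolynomial.ne_zero_iff.mp hF0
    set F1 := insert b0 F0 with hF1
    have hF1e : F1.erase b0 = F0 := Finset.erase_insert hb0.2
    let Q : MvPolynomial σ K := ∑ b ∈ F1, if b ∈ S i then
      monomial (ex b) (sg K (F1.erase b) b * coeff u (g (F1.erase b))) else 0
    have hQ : Q ≠ 0 := by
      intro hQ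
      have h1 := congrArg (coeff (ex b0)) hQ
      simp only [Q, coeff_sum, coeff_zero] at h1
      rw [Finset.sum_eq_single b0] at h1
      · rw [if_pos hi, coeff_monomial, if_pos rfl, hF1e] at h1
        exact mul_ne_zero (sg_ne_zero _ _) hu h1
      · intro b _ hb
        split_ifs
        · rw [coeff_monomial, if_neg (fun h' => hb (hex h'))]
        · simp
      · intro h'
        exact absurd (Finset.mem_insert_self _ _) h'
    obtain ⟨a, ha⟩ : ∃ a : σ → K, eval a (Q * g F0) ≠ 0 := by
      by_contra hcon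
      push Not at hcon
      exact mul_ne_zero hQ hF0 (MvPolynomial.funext (fun a => by rw [hcon a, map_zero]))
    rw [map_mul] at ha
    have ha1 := left_ne_zero_of_mul ha
    have ha2 := right_ne_zero_of_mul ha
    let M' : Submodule K (MvPolynomial σ K) := M ⊓ LinearMap.ker (aeval a).toLinearMap
    have hlt : M' < M := by
      refine lt_of_le_of_ne inf_le_left ?_
      intro h'
      have h1 : g F0 ∈ M' := by
        rw [h']; exact hg F0
      apply ha2
      have h2 := LinearMap.mem_ker.mp (Submodule.mem_inf.mp h1).2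
      simpa [aeval_eq_eval] using h2
    have hfd : FiniteDimensional K M' := Submodule.finiteDimensional_of_le hlt.le
    have hfr : Module.finrank K M' ≤ h := by
      have := Submodule.finrank_lt_finrank_of_lt hlt
      omega
    let η : J → MvPolynomial σ K := fun b =>
      C (eval a (if b ∈ S i then monomial (ex b) (1 : K) else 0))
    have key := @ih M' hfd hfr (wedge K η g) ?_ ?_ F1 ?_
    · have e : (S 0 ∪ S 1) \ F1 = ((S 0 ∪ S 1) \ F0).erase b0 := by
        ext x
        simp only [hF1, Finset.mem_sdiff, Finset.mem_insert, Finset.mem_erase, not_or]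
        tauto
      rw [e, Finset.card_erase_of_mem (Finset.mem_sdiff.mpr hb0)] at key
      omega
    · intro F
      refine Submodule.mem_inf.mpr ⟨Submodule.sum_mem _ fun b _ => Submodule.smul_mem _ _ ?_, ?_⟩
      · simp only [η]
        rw [C_mul']
        exact Submodule.smul_mem _ _ (hg _)
      · rw [LinearMap.mem_ker, AlgHom.toLinearMap_apply, aeval_eq_eval]
        have h1 := congrArg (eval a) (hcyc i F)
        rw [map_zero] at h1
        rw [← h1]
        simp only [wedge, map_sum, smul_eval, map_mul, η, eval_C]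
    · intro j F
      rw [wedge_anti]
      have : wedge K (fun b => if b ∈ S j then monomial (ex b) (1 : K) else 0) g = 0 :=
        funext (hcyc j)
      rw [this]
      simp [wedge]
    · intro h0
      apply ha1
      have h1 := congrArg (coeff u) h0
      rw [coeff_zero] at h1
      rw [← h1]
      simp only [Q, wedge, map_sum, coeff_sum, η]
      refine Finset.sum_congr rfl fun b _ => ?_
      rw [coeff_smul, coeff_C_mul, smul_eq_mul]
      split_ifs
      · rw [eval_monomial, eval_monomial]
        ring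
      · simp

end vanish

section lead

variable {X K Γ : Type*} [Field K] [LinearOrder Γ]

/-- `x` is a leading position of `f` -/
def IsLead (κ : X → Γ) (f : X → K) (x : X) : Prop := f x ≠ 0 ∧ ∀ y, f y ≠ 0 → κ y ≤ κ x

open Classical in
/-- the leading positions of a space of functions -/
noncomputable def LT (κ : X → Γ) (A : Finset X) (Z : Submodule K (X → K)) : Finset X :=
  A.filter (fun x => ∃ f ∈ Z, IsLead κ f x)

lemma mem_LT {κ : X → Γ} {A : Finset X} {Z : Submodule K (X → K)} {x : X} :
    x ∈ LT κ A Z ↔ x ∈ A ∧ ∃ f ∈ Z, IsLead κ f x := by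
  classical
  unfold LT
  rw [Finset.mem_filter]

lemma exists_lead (κ : X → Γ) (A : Finset X) {f : X → K} (hA : ∀ x, f x ≠ 0 → x ∈ A)
    (hf : f ≠ 0) : ∃ x ∈ A, IsLead κ f x := by
  classical
  obtain ⟨x0, hx0⟩ := Function.ne_iff.mp hf
  have hne : (A.filter (fun x => f x ≠ 0)).Nonempty := ⟨x0, Finset.mem_filter.mpr ⟨hA _ hx0, hx0⟩⟩
  obtain ⟨x, hx, hmax⟩ := Finset.exists_max_image _ κ hne
  rw [Finset.mem_filter] at hx
  exact ⟨x, hx.1, hx.2, fun y hy => hmax y (Finset.mem_filter.mpr ⟨hA y hy, hy⟩)⟩

lemma finrank_le_LT (κ : X → Γ) (A : Finset X) (Z : Submodule K (X → K))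
    (hA : ∀ f ∈ Z, ∀ x, f x ≠ 0 → x ∈ A) : Module.finrank K Z ≤ (LT κ A Z).card := by
  classical
  let Φ : Z →ₗ[K] (LT κ A Z → K) :=
    (LinearMap.funLeft K K (fun x : LT κ A Z => (x : X))).comp Z.subtype
  have hinj : Function.Injective Φ := by
    rw [injective_iff_map_eq_zero]
    rintro ⟨f, hf⟩ h0
    by_contra hne
    have hne' : f ≠ 0 := fun h => hne (Subtype.ext h)
    obtain ⟨x, hx, hl⟩ := exists_lead κ A (hA f hf) hne'
    have h1 := congrFun h0 ⟨x, mem_LT.mpr ⟨hx, f, hf, hl⟩⟩
    exact hl.1 h1
  have := LinearMap.finrank_le_finrank_of_injective hinj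
  rwa [Module.finrank_fintype_fun_eq_card, Fintype.card_coe] at this

lemma finite_of_supp (A : Finset X) (Z : Submodule K (X → K))
    (hA : ∀ f ∈ Z, ∀ x, f x ≠ 0 → x ∈ A) : FiniteDimensional K Z := by
  classical
  let Φ : Z →ₗ[K] (A → K) :=
    (LinearMap.funLeft K K (fun x : A => (x : X))).comp Z.subtype
  have hinj : Function.Injective Φ := by
    rw [injective_iff_map_eq_zero]
    rintro ⟨f, hf⟩ h0
    apply Subtype.ext
    funext x
    by_contra hx
    exact hx (congrFun h0 ⟨x, hA f hf x hx⟩)
  exact FiniteDimensional.of_injective Φ hinj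

lemma LT_le_finrank (κ : X → Γ) (hκ : Function.Injective κ) (A : Finset X)
    (Z : Submodule K (X → K)) (hA : ∀ f ∈ Z, ∀ x, f x ≠ 0 → x ∈ A) :
    (LT κ A Z).card ≤ Module.finrank K Z := by
  classical
  have := finite_of_supp A Z hA
  have hex : ∀ x : LT κ A Z, ∃ f : Z, IsLead κ (f : X → K) x := by
    rintro ⟨x, hx⟩
    obtain ⟨_, f, hf, hl⟩ := mem_LT.mp hx
    exact ⟨⟨f, hf⟩, hl⟩
  choose φ hφ using hex
  have hli : LinearIndependent K φ := by
    rw [Fintype.linearIndependent_iff]
    intro c hc
    by_contra hne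
    push Not at hne
    obtain ⟨x0, hx0⟩ := hne
    have hne : (univ.filter (fun x => c x ≠ 0)).Nonempty := ⟨x0, by simpa using hx0⟩
    obtain ⟨x, hx, hmax⟩ := Finset.exists_max_image _ (fun x : LT κ A Z => κ x) hne
    simp only [Finset.mem_filter, Finset.mem_univ, true_and] at hx hmax
    have h1 := congrFun (congrArg Subtype.val hc) x
    simp only [AddSubmonoidClass.coe_finset_sum, SetLike.val_smul, Finset.sum_apply, Pi.smul_apply,
      smul_eq_mul, ZeroMemClass.coe_zero, Pi.zero_apply] at h1
    rw [Finset.sum_eq_single x] at h1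
    · exact mul_ne_zero hx (hφ x).1 h1
    · intro y _ hy
      by_contra h2
      have h3 := (hφ y).2 x (right_ne_zero_of_mul h2)
      have h4 := hmax y (left_ne_zero_of_mul h2)
      exact hy (Subtype.ext (hκ (le_antisymm h4 h3)))
    · intro h'
      exact absurd (Finset.mem_univ _) h'
  have := hli.fintype_card_le_finrank
  rwa [Fintype.card_coe] at this

end lead

section count

variable {J : Type*} [Fintype J] [DecidableEq J]

lemma count_le (𝒜 ℬ : Finset (Finset J)) (S : Finset J) (P h : ℕ)
    (hA : ∀ F ∈ 𝒜, F.card = P) (hB : ∀ F ∈ ℬ, F.card = P + 1)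
    (hup : ∀ F ∈ 𝒜, ∀ b, b ∉ F → insert b F ∈ ℬ)
    (hA' : ∀ F ∈ 𝒜, (S \ F).card < h) (hB' : ∀ F ∈ ℬ, (S \ F).card < h)
    (hP : 2 * P + 2 * h ≤ Fintype.card J + S.card + 1) : 𝒜.card ≤ ℬ.card := by
  have hS : S.card ≤ Fintype.card J := Finset.card_le_univ S
  have key := Finset.card_mul_le_card_mul (s := 𝒜) (t := ℬ)
    (fun F F' => ∃ b, b ∉ F ∧ b ∉ S ∧ F' = insert b F)
    (m := Fintype.card J + 1 - P - h) (n := P + h - S.card) ?_ ?_
  · have h1 : P + h - S.card ≤ Fintype.card J + 1 - P - h := by omega
    have h2 : 0 < Fintype.card J + 1 - P - h := by omega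
    have h3 := key.trans (Nat.mul_le_mul_left _ h1)
    exact Nat.le_of_mul_le_mul_right h3 h2
  · intro F hF
    have h1 : ((F ∪ S)ᶜ).card ≤ (ℬ.bipartiteAbove
        (fun F F' => ∃ b, b ∉ F ∧ b ∉ S ∧ F' = insert b F) F).card := by
      refine Finset.card_le_card_of_injOn (fun b => insert b F) ?_ ?_
      · intro b hb
        simp only [Finset.coe_compl, Set.mem_compl_iff, Finset.mem_coe, Finset.mem_union,
          not_or] at hb
        simp only [Finset.mem_coe, Finset.mem_bipartiteAbove]
        exact ⟨hup F hF b hb.1, b, hb.1, hb.2, rfl⟩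
      · intro b hb c hc hbc
        simp only [Finset.coe_compl, Set.mem_compl_iff, Finset.mem_coe, Finset.mem_union,
          not_or] at hb hc
        have : b ∈ insert c F := by
          simp only at hbc
          rw [← hbc]; exact Finset.mem_insert_self _ _
        rcases Finset.mem_insert.mp this with h' | h'
        · exact h'
        · exact absurd h' hb.1
    rw [Finset.card_compl] at h1
    have h2 : (F ∪ S).card = P + (S \ F).card := by
      rw [← hA F hF, ← Finset.card_union_of_disjoint Finset.disjoint_sdiff, Finset.union_sdiff_self_eq_union]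
    have h3 := hA' F hF
    omega
  · intro F' hF'
    have h1 : (𝒜.bipartiteBelow
        (fun F F' => ∃ b, b ∉ F ∧ b ∉ S ∧ F' = insert b F) F') ⊆
        (F' \ S).image (fun b => F'.erase b) := by
      intro F hF
      rw [Finset.mem_bipartiteBelow] at hF
      obtain ⟨_, b, hb1, hb2, rfl⟩ := hF
      rw [Finset.mem_image]
      exact ⟨b, Finset.mem_sdiff.mpr ⟨Finset.mem_insert_self _ _, hb2⟩, Finset.erase_insert hb1⟩
    have h2 := (Finset.card_le_card h1).trans Finset.card_image_le
    have h3 := Finset.card_sdiff_add_card_inter F' S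
    have h4 := Finset.card_sdiff_add_card_inter S F'
    rw [Finset.inter_comm] at h4
    have h5 := hB F' hF'
    have h6 := hB' F' hF'
    omega

end count

end Pool.Agent.H631Z.Ver
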