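import Mathlib

/-!
Koszul cohomology of the Veronese embeddings of `ℙⁿ` over `ℂ`.
-/

namespace Pool.Agent.H631Z.Ver

open MvPolynomial Finset

/-- The homogeneous coordinate ring `ℂ[x₀,…,xₙ]` of `ℙⁿ`. -/
abbrev Poly (n : ℕ) := MvPolynomial (Fin (n + 1)) ℂ

/-- `H⁰(ℙⁿ, 𝒪(e))`: the homogeneous polynomials of degree `e` (zero for negative `e`). -/
noncomputable def Sec (n : ℕ) (e : ℤ) : Submodule ℂ (Poly n) :=
  if 0 ≤ e then homogeneousSubmodule (Fin (n + 1)) ℂ e.toNat else ⊥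

/-- The exponent vectors of the monomials of degree `d` in `x₀,…,xₙ`. -/
def Mon (n d : ℕ) : Finset (Fin (n + 1) →₀ ℕ) := Finset.finsuppAntidiag Finset.univ d

/-- An enumeration of the monomials of degree `d`. -/
noncomputable def mon (n d : ℕ) : Fin (Mon n d).card ≃ Mon n d := (Mon n d).equivFin.symm

/-- The enumerated monomial basis `s_0, …, s_{r_d}` of `V_d = H⁰(ℙⁿ, 𝒪(d))`. -/
noncomputable def bas (n d : ℕ) (i : Fin (Mon n d).card) : Poly n := monomial (mon n d i).1 1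

/-- The Koszul differential. An element `∑_F s_F ⊗ f(F)` of `Λ^p V_d ⊗ H⁰(𝒪(e))` (where
`s_F = s_{i_1} ∧ … ∧ s_{i_p}` for `F = {i_1 < … < i_p}`) is represented by the function `f` on
finite sets of indices; the differential sends `s_F ⊗ t` to
`∑_j (-1)^(j-1) s_{F ∖ i_j} ⊗ (s_{i_j} t)`. -/
noncomputable def kosz (n d : ℕ) :
    (Finset (Fin (Mon n d).card) → Poly n) →ₗ[ℂ] (Finset (Fin (Mon n d).card) → Poly n) where
  toFun f := fun G =>
    ∑ b ∈ Gᶜ, (-1) ^ (G.filter (fun c => c < b)).card * bas n d b * f (insert b G)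
  map_add' := by
    intro f g
    funext G
    simp [mul_add, Finset.sum_add_distrib]
  map_smul' := by
    intro c f
    funext G
    simp [Finset.smul_sum]

/-- `Λ^p V_d ⊗ H⁰(ℙⁿ, 𝒪(m d))`. -/
noncomputable def chains (n d p : ℕ) (m : ℤ) :
    Submodule ℂ (Finset (Fin (Mon n d).card) → Poly n) where
  carrier := {f | (∀ F, f F ∈ Sec n (m * d)) ∧ ∀ F, F.card ≠ p → f F = 0}
  add_mem' := by
    rintro f g ⟨hf, hf'⟩ ⟨hg, hg'⟩
    refine ⟨fun F => Submodule.add_mem _ (hf F) (hg F), fun F hF => ?_⟩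
    rw [Pi.add_apply, hf' F hF, hg' F hF, add_zero]
  zero_mem' := ⟨fun F => Submodule.zero_mem _, fun F _ => rfl⟩
  smul_mem' := by
    rintro c f ⟨hf, hf'⟩
    refine ⟨fun F => Submodule.smul_mem _ c (hf F), fun F hF => ?_⟩
    rw [Pi.smul_apply, hf' F hF, smul_zero]

/-- The cycles in `Λ^p V_d ⊗ H⁰(𝒪(q d))`. -/
noncomputable def cyc (n d p : ℕ) (q : ℤ) :
    Submodule ℂ (Finset (Fin (Mon n d).card) → Poly n) :=
  chains n d p q ⊓ LinearMap.ker (kosz n d)

/-- The boundaries: the image of `Λ^{p+1} V_d ⊗ H⁰(𝒪((q-1) d))`. -/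
noncomputable def bdy (n d p : ℕ) (q : ℤ) :
    Submodule ℂ (Finset (Fin (Mon n d).card) → Poly n) :=
  (chains n d (p + 1) (q - 1)).map (kosz n d)

/-- `k_{p,q}(ℙⁿ, 𝒪(d))`, the dimension of the Koszul cohomology group `K_{p,q}(ℙⁿ, 𝒪(d))`, i.e. of
the quotient of the cycles by the boundaries. -/
noncomputable def kpq (n d p : ℕ) (q : ℤ) : ℕ :=
  Module.finrank ℂ (cyc n d p q ⧸ (bdy n d p q).submoduleOf (cyc n d p q))

/-- `r_d = binom(n+d, n) - 1`, as a real number. -/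
noncomputable def rr (n d : ℕ) : ℝ := ((n + d).choose n : ℝ) - 1

end Pool.Agent.H631Z.Ver
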