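import Mathlib
import Pool.Agent.H940R2.Dual
import Pool.Agent.H631Z.Ver.Defs

/-!
`K_{p,n}(ℙⁿ, 𝒪(d))` as a space of cocycles on cells with negative exponents.
-/

namespace Pool.Agent.H631Z.Ver

open MvPolynomial Finset
open Pool.Agent.H940R2 (sg DK DT dg CC DS ZZ BB HH IsoH Split Conv Ac DD DK_apply DT_apply dg_mk
  DK_lowers mk_ZZ ZZ_eq DS_apply_mem DS_apply_notMem DS_mem_CC quot_equiv cone_ac closed_of
  finrank_HH_dual DK_pair)

variable {n d : ℕ}

/-- lattice of exponents -/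
abbrev Lat (n : ℕ) := Fin (n + 1) → ℤ

/-- index set of the monomials -/
abbrev Ix (n d : ℕ) := Fin (Mon n d).card

lemma mem_Mon {u : Fin (n + 1) →₀ ℕ} : u ∈ Mon n d ↔ ∑ i, u i = d := by
  simp [Mon, Finset.mem_finsuppAntidiag]

lemma mem_Sec {e : ℤ} {f : Poly n} :
    f ∈ Sec n e ↔ ∀ u : Fin (n + 1) →₀ ℕ, coeff u f ≠ 0 → (∑ i, (u i : ℤ)) = e := by
  unfold Sec
  have hdeg : ∀ u : Fin (n + 1) →₀ ℕ, (Finsupp.weight (1 : Fin (n + 1) → ℕ)) u = ∑ i, u i := by
    intro u
    rw [Finsupp.weight_apply, Finsupp.sum_fintype] <;> simp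
  split_ifs with h
  · rw [mem_homogeneousSubmodule]
    unfold IsHomogeneous IsWeightedHomogeneous
    constructor
    · intro H u hu
      have := H hu
      rw [hdeg] at this
      have h2 : ((∑ i, u i : ℕ) : ℤ) = e := by rw [this]; exact Int.toNat_of_nonneg h
      push_cast at h2
      exact h2
    · intro H u hu
      have := H u hu
      rw [hdeg]
      have h2 : ((∑ i, u i : ℕ) : ℤ) = e := by push_cast; exact this
      omega
  · rw [Submodule.mem_bot]
    constructor
    · rintro rfl u hu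
      simp at hu
    · intro H
      ext u
      by_contra hu
      have := H u (by simpa using hu)
      have h2 : (0 : ℤ) ≤ ∑ i, (u i : ℤ) := Finset.sum_nonneg fun i _ => Int.natCast_nonneg _
      omega

/-- exponent vectors as integer vectors -/
noncomputable def exd (n d : ℕ) : Ix n d → Lat n := fun b c => ((mon n d b).1 c : ℤ)

lemma exd_nonneg (b : Ix n d) (c : Fin (n + 1)) : 0 ≤ exd n d b c := Int.natCast_nonneg _

lemma exd_sum (b : Ix n d) : ∑ c, exd n d b c = d := by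
  have := mem_Mon.mp (mon n d b).2
  simp only [exd]
  exact_mod_cast this

lemma exd_vert (k : Fin (n + 1)) : ∃ b : Ix n d, ∀ c, c ≠ k → exd n d b c = 0 := by
  have h : Finsupp.single k d ∈ Mon n d := by
    rw [mem_Mon]
    simp [Finsupp.single_apply]
  refine ⟨(mon n d).symm ⟨_, h⟩, fun c hc => ?_⟩
  simp [exd, Finsupp.single_apply, Ne.symm hc]

/-- The region: exponents with index `< k` are nonnegative, those with index `≥ k'` negative. -/
def Rg (n d : ℕ) (t : ℤ) (k k' : ℕ) : Set (Finset (Ix n d) × Lat n) :=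
  {x | ∑ c, x.2 c = (t - x.1.card) * d ∧ (∀ c : Fin (n + 1), c.val < k → 0 ≤ x.2 c) ∧
    (∀ c : Fin (n + 1), k' ≤ c.val → x.2 c < 0)}

lemma base_step (t : ℤ) {F : Finset (Ix n d)} {u : Lat n} {b : Ix n d} (hb : b ∉ F) :
    ∑ c, u c = (t - F.card) * d ↔ ∑ c, (u - exd n d b) c = (t - (insert b F).card) * d := by
  rw [Finset.card_insert_of_notMem hb]
  simp only [Pi.sub_apply, Finset.sum_sub_distrib, exd_sum]
  push_cast
  constructor
  · intro e; rw [e]; ring
  · intro e; linear_combination e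

lemma Rg_conv (t : ℤ) (k k' : ℕ) : Conv (exd n d) (Rg n d t k k') := by
  intro G u b c hb hc hbc h1 h2
  obtain ⟨b1, x1, y1⟩ := h1
  obtain ⟨b2, x2, y2⟩ := h2
  refine ⟨(base_step t hb).mp b1, ?_, ?_⟩
  · intro a ha
    have := x2 a ha
    simp only [Pi.sub_apply] at this ⊢
    linarith [exd_nonneg c a]
  · intro a ha
    have := y1 a ha
    simp only [Pi.sub_apply] at this ⊢
    linarith [exd_nonneg b a]

lemma split_flip (t : ℤ) {k : ℕ} (hk : k < n + 1) :
    Split (DK ℂ (exd n d)) (Rg n d t k (k + 1)) (Rg n d t (k + 1) (k + 1)) (Rg n d t k k) where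
  union := by
    ext x
    constructor
    · rintro ⟨hb, hx, hy⟩
      by_cases h0 : 0 ≤ x.2 ⟨k, hk⟩
      · left
        refine ⟨hb, ?_, hy⟩
        intro a ha
        rcases Nat.lt_succ_iff_lt_or_eq.mp ha with h1 | h1
        · exact hx a h1
        · have : a = ⟨k, hk⟩ := Fin.ext h1
          rw [this]; exact h0
      · right
        refine ⟨hb, hx, ?_⟩
        intro a ha
        rcases Nat.lt_or_eq_of_le ha with h1 | h1
        · exact hy a h1
        · have : a = ⟨k, hk⟩ := Fin.ext h1.symm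
          rw [this]; exact not_le.mp h0
    · rintro (⟨hb, hx, hy⟩ | ⟨hb, hx, hy⟩)
      · exact ⟨hb, fun a ha => hx a (by omega), hy⟩
      · exact ⟨hb, hx, fun a ha => hy a (by omega)⟩
  disj := by
    rw [Set.disjoint_left]
    rintro x ⟨_, hx, _⟩ ⟨_, _, hy⟩
    have h1 := hx ⟨k, hk⟩ (by simp)
    have h2 := hy ⟨k, hk⟩ (by simp)
    exact absurd h1 (not_le.mpr h2)
  closed := by
    refine closed_of ?_
    intro G u b hb h2 h1
    have e1 := h1.2.1 ⟨k, hk⟩ (by simp)
    have e2 := h2.2.2 ⟨k, hk⟩ (by simp)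
    simp only [Pi.sub_apply] at e1 e2
    linarith [exd_nonneg b ⟨k, hk⟩]
  good := (Rg_conv t k (k + 1)).good

lemma mid_ac (t : ℤ) {k : ℕ} (hk : k < n + 1) :
    Ac dg (DK ℂ (exd n d)) (Rg n d t k (k + 1)) := by
  obtain ⟨i, hi⟩ := exd_vert (n := n) (d := d) ⟨k, hk⟩
  refine cone_ac _ i ?_
  intro F u hF
  have hx : ∀ a : Fin (n + 1), a.val ≠ k → exd n d i a = 0 := by
    intro a ha
    apply hi
    intro h'
    exact ha (congrArg Fin.val h')
  simp only [Rg, Set.mem_ofPred_eq]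
  rw [← base_step t hF]
  simp only [Pi.sub_apply]
  constructor
  · rintro ⟨e1, e2, e3⟩
    refine ⟨e1, ?_, ?_⟩
    · intro a ha; rw [hx a (by omega), sub_zero]; exact e2 a ha
    · intro a ha; rw [hx a (by omega), sub_zero]; exact e3 a ha
  · rintro ⟨e1, e2, e3⟩
    refine ⟨e1, ?_, ?_⟩
    · intro a ha; have := e2 a ha; rw [hx a (by omega), sub_zero] at this; exact this
    · intro a ha; have := e3 a ha; rw [hx a (by omega), sub_zero] at this; exact this

lemma flips (t : ℤ) (k : ℕ) (hk : k ≤ n + 1) (p : ℕ) :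
    IsoH dg (DK ℂ (exd n d)) (Rg n d t k k) p (Rg n d t 0 0) (p + k) := by
  induction k generalizing p with
  | zero => exact ⟨LinearEquiv.refl _ _⟩
  | succ k ih =>
    have f0 := (split_flip (n := n) (d := d) t (k := k) (by omega)).flip (DK_lowers _)
      (mid_ac t (k := k) (by omega)) p
    have f1 := ih (by omega) (p + 1)
    have e : p + 1 + k = p + (k + 1) := by omega
    rw [e] at f1
    exact (f0.symm ℂ).trans ℂ f1

/-- natural exponents -/
noncomputable def nt (u : Lat n) : Fin (n + 1) →₀ ℕ :=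
  Finsupp.equivFunOnFinite.symm (fun c => (u c).toNat)

@[simp] lemma nt_apply (u : Lat n) (c : Fin (n + 1)) : nt u c = (u c).toNat := rfl

/-- integer exponents -/
def zt (u : Fin (n + 1) →₀ ℕ) : Lat n := fun c => (u c : ℤ)

@[simp] lemma nt_zt (u : Fin (n + 1) →₀ ℕ) : nt (zt u) = u := by
  ext c
  simp [zt]

lemma zt_nt {u : Lat n} (h : ∀ c, 0 ≤ u c) : zt (nt u) = u := by
  funext c
  simp [zt, h c]

open Classical in
/-- passing to coefficients -/
noncomputable def TT (n d : ℕ) :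
    (Finset (Ix n d) → Poly n) →ₗ[ℂ] (Finset (Ix n d) × Lat n → ℂ) where
  toFun f := fun x => if ∀ c, 0 ≤ x.2 c then coeff (nt x.2) (f x.1) else 0
  map_add' := by
    intro f g
    funext x
    by_cases h : ∀ c, 0 ≤ x.2 c
    · simp only [if_pos h, Pi.add_apply, coeff_add]
    · simp only [if_neg h, Pi.add_apply, add_zero]
  map_smul' := by
    intro a f
    funext x
    by_cases h : ∀ c, 0 ≤ x.2 c
    · simp only [if_pos h, Pi.smul_apply, coeff_smul, RingHom.id_apply]
    · simp only [if_neg h, Pi.smul_apply, smul_zero]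

lemma TT_pos {f : Finset (Ix n d) → Poly n} {F : Finset (Ix n d)} {u : Lat n}
    (h : ∀ c, 0 ≤ u c) : TT n d f (F, u) = coeff (nt u) (f F) := by
  simp only [TT, LinearMap.coe_mk, AddHom.coe_mk, if_pos h]

lemma TT_neg {f : Finset (Ix n d) → Poly n} {F : Finset (Ix n d)} {u : Lat n}
    (h : ¬ ∀ c, 0 ≤ u c) : TT n d f (F, u) = 0 := by
  simp only [TT, LinearMap.coe_mk, AddHom.coe_mk, if_neg h]

lemma TT_inj : Function.Injective (TT n d) := by
  rw [injective_iff_map_eq_zero]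
  intro f hf
  funext F
  ext u
  have h1 := congrFun hf (F, zt u)
  rw [TT_pos (fun c => by simp [zt]), nt_zt] at h1
  rw [h1]
  simp

lemma kosz_apply (f : Finset (Ix n d) → Poly n) (G : Finset (Ix n d)) :
    kosz n d f G =
      ∑ b ∈ Gᶜ, (-1) ^ (G.filter (fun c => c < b)).card * bas n d b * f (insert b G) := rfl

lemma coeff_kosz (f : Finset (Ix n d) → Poly n) (G : Finset (Ix n d)) (u : Fin (n + 1) →₀ ℕ) :
    coeff u (kosz n d f G) = ∑ b ∈ Gᶜ, (-1 : ℂ) ^ (G.filter (fun c => c < b)).card *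
      (if (mon n d b).1 ≤ u then coeff (u - (mon n d b).1) (f (insert b G)) else 0) := by
  rw [kosz_apply, coeff_sum]
  refine Finset.sum_congr rfl fun b _ => ?_
  have : ((-1 : Poly n) ^ (G.filter (fun c => c < b)).card * bas n d b * f (insert b G)) =
      C ((-1 : ℂ) ^ (G.filter (fun c => c < b)).card) * (bas n d b * f (insert b G)) := by
    simp [mul_assoc]
  rw [this, coeff_C_mul, bas, coeff_monomial_mul', one_mul]

lemma DK_TT (f : Finset (Ix n d) → Poly n) (G : Finset (Ix n d)) (u : Lat n) :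
    DK ℂ (exd n d) (TT n d f) (G, u) = TT n d (kosz n d f) (G, u) := by
  rw [DK_apply]
  by_cases hu : ∀ c, 0 ≤ u c
  · rw [TT_pos hu, coeff_kosz]
    refine Finset.sum_congr rfl fun i _ => ?_
    rw [sg]
    congr 1
    by_cases h : (mon n d i).1 ≤ nt u
    · rw [if_pos h]
      have h' : ∀ c, 0 ≤ (u - exd n d i) c := by
        intro c
        have := h c
        rw [nt_apply] at this
        simp only [Pi.sub_apply, exd]
        have := hu c
        omega
      rw [TT_pos h']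
      congr 1
      ext c
      simp only [nt_apply, Pi.sub_apply, exd, Finsupp.tsub_apply]
      have := hu c
      omega
    · rw [if_neg h, TT_neg]
      intro h'
      apply h
      intro c
      have := h' c
      simp only [Pi.sub_apply, exd] at this
      rw [nt_apply]
      omega
  · rw [TT_neg hu]
    apply Finset.sum_eq_zero
    intro i _
    rw [TT_neg, mul_zero]
    intro h'
    apply hu
    intro c
    have h1 := h' c
    simp only [Pi.sub_apply, exd] at h1
    omega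

/-- the region of the section ring -/
abbrev Sin (n d : ℕ) (t : ℤ) := Rg n d t (n + 1) (n + 1)

lemma mem_Sin {t : ℤ} {F : Finset (Ix n d)} {u : Lat n} :
    (F, u) ∈ Sin n d t ↔ ∑ c, u c = (t - F.card) * d ∧ ∀ c, 0 ≤ u c := by
  constructor
  · rintro ⟨h1, h2, _⟩
    exact ⟨h1, fun c => h2 c c.2⟩
  · rintro ⟨h1, h2⟩
    exact ⟨h1, fun c _ => h2 c, fun c hc => absurd c.2 (by omega)⟩

lemma TT_supp {f : Finset (Ix n d) → Poly n} {t : ℤ}
    (hf : ∀ F, f F ∈ Sec n ((t - F.card) * d)) (x) (hx : TT n d f x ≠ 0) :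
    x ∈ Sin n d t ∧ f x.1 ≠ 0 := by
  obtain ⟨F, u⟩ := x
  by_cases h : ∀ c, 0 ≤ u c
  · rw [TT_pos h] at hx
    have h1 := mem_Sec.mp (hf F) (nt u) hx
    refine ⟨mem_Sin.mpr ⟨?_, h⟩, ?_⟩
    · have e : ∀ c, ((nt u c : ℕ) : ℤ) = u c := by
        intro c
        rw [nt_apply]
        exact Int.toNat_of_nonneg (h c)
      simp only [e] at h1
      exact h1
    · intro h0
      simp only at h0
      rw [h0] at hx
      simp at hx
  · exact absurd (TT_neg h) hx

lemma chains_Sec {p : ℕ} {m : ℤ} {f : Finset (Ix n d) → Poly n} (hf : f ∈ chains n d p m)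
    (F : Finset (Ix n d)) : f F ∈ Sec n (((p + m : ℤ) - F.card) * d) := by
  by_cases h : F.card = p
  · rw [h]
    have : ((p + m : ℤ) - p) = m := by ring
    rw [this]
    exact hf.1 F
  · rw [hf.2 F h]
    exact Submodule.zero_mem _

lemma kosz_Sec {t : ℤ} {f : Finset (Ix n d) → Poly n}
    (hf : ∀ F, f F ∈ Sec n ((t - F.card) * d)) (F : Finset (Ix n d)) :
    kosz n d f F ∈ Sec n ((t - F.card) * d) := by
  rw [mem_Sec]
  intro u hu
  rw [coeff_kosz] at hu
  obtain ⟨b, hb, hb'⟩ := Finset.exists_ne_zero_of_sum_ne_zero hu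
  have h1 := right_ne_zero_of_mul hb'
  by_cases hle : (mon n d b).1 ≤ u
  · rw [if_pos hle] at h1
    have h2 := mem_Sec.mp (hf _) _ h1
    rw [Finset.card_insert_of_notMem (by simpa using hb)] at h2
    have e : ∀ c, ((u c : ℕ) : ℤ) = (((u - (mon n d b).1) c : ℕ) : ℤ) + exd n d b c := by
      intro c
      have := hle c
      rw [Finsupp.tsub_apply, exd]
      omega
    simp only [e, Finset.sum_add_distrib, exd_sum, h2]
    push_cast
    ring
  · rw [if_neg hle] at h1
    exact absurd rfl h1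

lemma TT_CC {p : ℕ} {m : ℤ} {f : Finset (Ix n d) → Poly n} (hf : f ∈ chains n d p m) :
    TT n d f ∈ CC dg (Sin n d (p + m)) p := by
  intro x hx
  have h1 := TT_supp (fun F => chains_Sec hf F) x hx
  refine ⟨h1.1, ?_⟩
  obtain ⟨F, u⟩ := x
  rw [dg_mk]
  by_contra h
  exact h1.2 (hf.2 _ h)

lemma DS_TT {t : ℤ} {f : Finset (Ix n d) → Poly n} (hf : ∀ F, f F ∈ Sec n ((t - F.card) * d)) :
    DS (DK ℂ (exd n d)) (Sin n d t) (TT n d f) = TT n d (kosz n d f) := by
  funext x
  by_cases hx : x ∈ Sin n d t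
  · rw [DS_apply_mem hx]
    exact DK_TT f x.1 x.2
  · rw [DS_apply_notMem hx]
    symm
    by_contra h
    exact hx (TT_supp (fun F => kosz_Sec hf F) x h).1

lemma TT_surj {p : ℕ} {m : ℤ} {g : Finset (Ix n d) × Lat n → ℂ}
    (hg : g ∈ CC dg (Sin n d (p + m)) p) : ∃ f ∈ chains n d p m, TT n d f = g := by
  classical
  let N : Fin (n + 1) →₀ ℕ := Finsupp.equivFunOnFinite.symm (fun _ => (m * d).toNat)
  let f : Finset (Ix n d) → Poly n := fun F =>
    ∑ u ∈ Finset.Iic N, monomial u (g (F, zt u))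
  have key : ∀ F : Finset (Ix n d), ∀ u : Fin (n + 1) →₀ ℕ, g (F, zt u) ≠ 0 →
      (∑ c, (u c : ℤ)) = m * d ∧ F.card = p := by
    intro F u h
    have h1 := hg _ h
    have h2 : F.card = p := h1.2
    refine ⟨?_, h2⟩
    have h3 := (mem_Sin.mp h1.1).1
    simp only [zt, h2] at h3
    have : ((p + m : ℤ) - p) = m := by ring
    rw [this] at h3
    exact h3
  have hcoeff : ∀ F : Finset (Ix n d), ∀ u : Fin (n + 1) →₀ ℕ, coeff u (f F) = g (F, zt u) := by
    intro F u
    simp only [f, coeff_sum, coeff_monomial]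
    rw [Finset.sum_ite_eq']
    split_ifs with h
    · rfl
    · by_contra hne
      apply h
      rw [Finset.mem_Iic]
      obtain ⟨h1, _⟩ := key F u (fun h' => hne h'.symm)
      intro c
      change u c ≤ (m * d).toNat
      have : (u c : ℤ) ≤ m * d := by
        rw [← h1]
        exact Finset.single_le_sum (f := fun a => (u a : ℤ))
            (fun _ _ => Int.natCast_nonneg _) (Finset.mem_univ c)
      omega
  refine ⟨f, ⟨?_, ?_⟩, ?_⟩
  · intro F
    rw [mem_Sec]
    intro u hu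
    rw [hcoeff] at hu
    exact (key F u hu).1
  · intro F hF
    ext u
    rw [hcoeff, coeff_zero]
    by_contra h
    exact hF (key F u h).2
  · funext x
    obtain ⟨F, u⟩ := x
    by_cases h : ∀ c, 0 ≤ u c
    · rw [TT_pos h, hcoeff, zt_nt h]
    · rw [TT_neg h]
      by_contra hne
      have h1 := hg _ (fun h' => hne h'.symm)
      exact h (mem_Sin.mp h1.1).2

theorem ident (n d p : ℕ) (q : ℤ) :
    Nonempty ((cyc n d p q ⧸ (bdy n d p q).submoduleOf (cyc n d p q)) ≃ₗ[ℂ]
      HH dg (DK ℂ (exd n d)) (Sin n d (p + q)) p) := by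
  refine quot_equiv _ _ _ _ ((TT n d).comp (Submodule.subtype _)) ?_ ?_ ?_
  · rintro ⟨z, hz⟩
    refine mk_ZZ (TT_CC hz.1) ?_
    change DS _ _ (TT n d z) = 0
    rw [DS_TT (fun F => chains_Sec hz.1 F), (LinearMap.mem_ker.mp hz.2), map_zero]
  · intro w hw
    obtain ⟨f, hf, rfl⟩ := TT_surj hw.1
    refine ⟨⟨f, hf, ?_⟩, 0, Submodule.zero_mem _, Submodule.zero_mem _, ?_⟩
    · have h1 := ZZ_eq hw
      rw [DS_TT (fun F => chains_Sec hf F)] at h1
      exact LinearMap.mem_ker.mpr (TT_inj (by rw [h1, map_zero]))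
    · rw [sub_zero]; rfl
  · rintro ⟨z, hz⟩
    have et : ((p + 1 : ℕ) : ℤ) + (q - 1) = p + q := by push_cast; ring
    constructor
    · rintro ⟨y, hy, hyz⟩
      have hy' : y ∈ CC dg (Sin n d (((p + 1 : ℕ) : ℤ) + (q - 1))) (p + 1) := by
        rw [et]; exact hy
      obtain ⟨f, hf, rfl⟩ := TT_surj hy'
      have h1 := fun F => chains_Sec hf F
      rw [et] at h1
      rw [DS_TT h1] at hyz
      refine ⟨f, hf, ?_⟩
      change kosz n d f = z
      apply TT_inj
      exact hyz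
    · rintro ⟨f, hf, hfz⟩
      have h1 := fun F => chains_Sec hf F
      rw [et] at h1
      have hy' := TT_CC hf
      rw [et] at hy'
      refine ⟨TT n d f, hy', ?_⟩
      rw [DS_TT h1]
      change TT n d (kosz n d f) = TT n d z
      rw [hfz]

/-- negative exponent vectors of total degree `-d` -/
def Neg (n d : ℕ) (u : Lat n) : Prop := (∀ c, u c < 0) ∧ ∑ c, u c = -d

/-- the cocycles on cells with negative exponents -/
def Zc (n d P : ℕ) : Submodule ℂ (Finset (Ix n d) × Lat n → ℂ) where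
  carrier := {f | (∀ x, f x ≠ 0 → x.1.card = P ∧ Neg n d x.2) ∧
    ∀ (F : Finset (Ix n d)) (w : Lat n), (∀ c, w c < 0) → DT ℂ (exd n d) f (F, w) = 0}
  add_mem' := by
    rintro f g ⟨hf, hf'⟩ ⟨hg, hg'⟩
    refine ⟨fun x hx => ?_, fun F w hw => ?_⟩
    · by_cases h : f x = 0
      · exact hg x (by simpa [h] using hx)
      · exact hf x h
    · rw [map_add, Pi.add_apply, hf' F w hw, hg' F w hw, add_zero]
  zero_mem' := ⟨fun x hx => absurd rfl hx, fun F w _ => by rw [map_zero]; rfl⟩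
  smul_mem' := by
    rintro c f ⟨hf, hf'⟩
    refine ⟨fun x hx => hf x (right_ne_zero_of_mul hx), fun F w hw => ?_⟩
    rw [map_smul, Pi.smul_apply, hf' F w hw, smul_zero]

lemma mem_Sout {t : ℤ} {F : Finset (Ix n d)} {u : Lat n} :
    (F, u) ∈ Rg n d t 0 0 ↔ ∑ c, u c = (t - F.card) * d ∧ ∀ c, u c < 0 := by
  constructor
  · rintro ⟨h1, _, h2⟩
    exact ⟨h1, fun c => h2 c (Nat.zero_le _)⟩
  · rintro ⟨h1, h2⟩
    exact ⟨h1, fun c hc => absurd hc (by omega), fun c _ => h2 c⟩

lemma neg_bound {u : Lat n} {e : ℤ} (h1 : ∀ c, u c < 0) (h2 : ∑ c, u c = e) (c : Fin (n + 1)) :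
    e ≤ u c := by
  rw [← h2]
  have := Finset.sum_le_sum_of_subset_of_nonneg (f := fun a => -u a)
    (Finset.subset_univ {c}) (fun i _ _ => by have := h1 i; omega)
  rw [Finset.sum_singleton, Finset.sum_neg_distrib] at this
  omega

lemma sout_finite (t : ℤ) : (Rg n d t 0 0).Finite := by
  have h1 : (Rg n d t 0 0) ⊆
      ⋃ F : Finset (Ix n d),
        ({F} : Set _) ×ˢ (Set.Icc (fun _ => (t - F.card) * d) (fun _ => 0) : Set (Lat n)) := by
    rintro ⟨F, u⟩ hx
    rw [Set.mem_iUnion]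
    obtain ⟨h1, h2⟩ := mem_Sout.mp hx
    refine ⟨F, rfl, fun c => neg_bound h2 h1 c, fun c => (h2 c).le⟩
  refine Set.Finite.subset ?_ h1
  refine Set.finite_iUnion fun F => ?_
  exact Set.Finite.prod (Set.finite_singleton F) (Set.finite_Icc _ _)

lemma DD_eq (p : ℕ) :
    DD dg (DT ℂ (exd n d)) (Rg n d ((p : ℤ) + n) 0 0) (p + (n + 1)) = Zc n d (p + (n + 1)) := by
  ext f
  constructor
  · rintro ⟨h1, h2⟩
    have hs : ∀ x, f x ≠ 0 → x.1.card = p + (n + 1) ∧ Neg n d x.2 := by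
      rintro ⟨F, u⟩ hx
      obtain ⟨h3, h4⟩ := h1 _ hx
      rw [dg_mk] at h4
      obtain ⟨h5, h6⟩ := mem_Sout.mp h3
      refine ⟨h4, h6, ?_⟩
      rw [h5, h4]
      push_cast
      ring
    refine ⟨hs, fun F w hw => ?_⟩
    by_contra hne
    have hne' := hne
    rw [DT_apply] at hne'
    obtain ⟨b, hb, hb'⟩ := Finset.exists_ne_zero_of_sum_ne_zero hne'
    obtain ⟨h3, h4⟩ := hs _ (right_ne_zero_of_mul hb')
    have h5 : F.card = p + (n + 1) + 1 := by
      simp only at h3
      rw [Finset.card_erase_of_mem hb] at h3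
      have : 0 < F.card := Finset.card_pos.mpr ⟨b, hb⟩
      omega
    refine hne (h2 _ (mem_Sout.mpr ⟨?_, hw⟩) h5)
    have h6 := h4.2
    simp only [Pi.add_apply, Finset.sum_add_distrib, exd_sum] at h6
    rw [h5]
    push_cast
    linear_combination h6
  · rintro ⟨h1, h2⟩
    refine ⟨?_, ?_⟩
    · rintro ⟨F, u⟩ hx
      obtain ⟨h3, h4, h5⟩ := h1 _ hx
      simp only at h3 h4 h5
      refine ⟨mem_Sout.mpr ⟨?_, h4⟩, h3⟩
      rw [h5, h3]
      push_cast
      ring
    · rintro ⟨F, w⟩ hz _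
      exact h2 F w (mem_Sout.mp hz).2

/-- `K_{p,n}` is dual to a space of cocycles. -/
theorem kpq_eq (n d p : ℕ) : kpq n d p n = Module.finrank ℂ (Zc n d (p + (n + 1))) := by
  classical
  obtain ⟨e1⟩ := ident n d p n
  obtain ⟨e2⟩ := flips (n := n) (d := d) ((p : ℤ) + n) (n + 1) le_rfl p
  rw [kpq, (e1.trans e2).finrank_eq, ← DD_eq]
  have hfin := sout_finite (n := n) (d := d) ((p : ℤ) + n)
  have hf5 : {x | x ∈ Rg n d ((p : ℤ) + n) 0 0 ∧ dg x = p + (n + 1)}.Finite :=
    hfin.subset (fun x hx => hx.1)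
  have hf6 : {x | x ∈ Rg n d ((p : ℤ) + n) 0 0 ∧ dg x = p + (n + 1) + 1}.Finite :=
    hfin.subset (fun x hx => hx.1)
  refine finrank_HH_dual (DT := DT ℂ (exd n d)) hf5.toFinset hf6.toFinset (by simp) (by simp)
    ?_ (DK_lowers _) ?_
  · intro w hw
    have h1 : DS (DK ℂ (exd n d)) (Rg n d ((p : ℤ) + n) 0 0) w ∈
        CC dg (Rg n d ((p : ℤ) + n) 0 0) (p + n) := DS_mem_CC (DK_lowers _) hw
    funext x
    by_contra hne
    obtain ⟨h2, h5⟩ := h1 x hne
    obtain ⟨F, u⟩ := x
    obtain ⟨h6, h7⟩ := mem_Sout.mp h2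
    rw [dg_mk] at h5
    rw [h5] at h6
    push_cast at h6
    simp only [sub_self, zero_mul] at h6
    have := neg_bound h7 h6 0
    have := h7 0
    omega
  · intro y l hy hl
    exact DK_pair _ _ _ y l hy hl

end Pool.Agent.H631Z.Ver
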