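import Mathlib
import Pool.Agent.H631Z.Ver.Ident
import Pool.Agent.H631Z.Ver.Core

/-!
Monotonicity of the dimensions of the spaces of cocycles, given a system of weights and blocks.
-/

namespace Pool.Agent.H631Z.Ver

open MvPolynomial Finset
open Pool.Agent.H940R2 (sg DT DT_apply sg_ne_zero)

variable {n d : ℕ}

lemma neg_finite (n d : ℕ) : {u : Lat n | Neg n d u}.Finite := by
  refine Set.Finite.subset (Set.finite_Icc (fun _ => -(d : ℤ)) (fun _ => 0)) ?_
  rintro u ⟨h1, h2⟩
  exact ⟨fun c => neg_bound h1 h2 c, fun c => (h1 c).le⟩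

/-- the negative exponent vectors of degree `-d` -/
noncomputable def NegF (n d : ℕ) : Finset (Lat n) := (neg_finite n d).toFinset

lemma mem_NegF {u : Lat n} : u ∈ NegF n d ↔ Neg n d u := by
  simp [NegF]

/-- the cells of level `P` -/
noncomputable def cells (n d P : ℕ) : Finset (Finset (Ix n d) × Lat n) :=
  (Finset.powersetCard P univ) ×ˢ NegF n d

lemma mem_cells {P : ℕ} {x : Finset (Ix n d) × Lat n} :
    x ∈ cells n d P ↔ x.1.card = P ∧ Neg n d x.2 := by
  simp [cells, mem_NegF]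

lemma Zc_supp {P : ℕ} : ∀ f ∈ Zc n d P, ∀ x, f x ≠ 0 → x ∈ cells n d P :=
  fun _ hf x hx => mem_cells.mpr (hf.1 x hx)

/-- an injective code -/
noncomputable def enc (n : ℕ) : Lat n → ℕ := Classical.choose (exists_injective_nat (Lat n))

lemma enc_inj : Function.Injective (enc n) := Classical.choose_spec (exists_injective_nat (Lat n))

/-- the weight of a cell -/
def Wt (ωB : Lat n → ℤ) (ω : Ix n d → ℤ) (x : Finset (Ix n d) × Lat n) : ℤ :=
  ωB x.2 - ∑ b ∈ x.1, ω b

/-- the term order -/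
noncomputable def key (ωB : Lat n → ℤ) (ω : Ix n d → ℤ) (x : Finset (Ix n d) × Lat n) :
    ℤ ×ₗ (ℕ ×ₗ ℕ) :=
  toLex (Wt ωB ω x, toLex (∑ b ∈ x.1, 2 ^ b.val, enc n x.2))

variable {ωB : Lat n → ℤ} {ω : Ix n d → ℤ}

lemma key_inj : Function.Injective (key ωB ω) := by
  rintro ⟨F, u⟩ ⟨F', u'⟩ h
  simp only [key, toLex_inj, Prod.mk.injEq] at h
  obtain ⟨_, h1, h2⟩ := h
  have e1 : F = F' := by
    have h3 : ∑ i ∈ F.map Fin.valEmbedding, 2 ^ i = ∑ i ∈ F'.map Fin.valEmbedding, 2 ^ i := by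
      rw [Finset.sum_map, Finset.sum_map]
      exact h1
    exact Finset.map_injective _ (Finset.geomSum_injective (le_refl 2) h3)
  rw [e1, enc_inj h2]

lemma key_le_iff {x y : Finset (Ix n d) × Lat n} : key ωB ω x ≤ key ωB ω y ↔
    Wt ωB ω x < Wt ωB ω y ∨ Wt ωB ω x = Wt ωB ω y ∧
      (∑ b ∈ x.1, 2 ^ b.val < ∑ b ∈ y.1, 2 ^ b.val ∨
        ∑ b ∈ x.1, 2 ^ b.val = ∑ b ∈ y.1, 2 ^ b.val ∧ enc n x.2 ≤ enc n y.2) := by
  simp only [key, Prod.Lex.toLex_le_toLex]

lemma key_insert {F F' : Finset (Ix n d)} {u u' : Lat n} {b : Ix n d} (hb : b ∉ F) (hb' : b ∉ F')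
    (h : key ωB ω (F, u) ≤ key ωB ω (F', u')) :
    key ωB ω (insert b F, u) ≤ key ωB ω (insert b F', u') := by
  rw [key_le_iff] at h ⊢
  simp only [Wt, Finset.sum_insert hb, Finset.sum_insert hb'] at h ⊢
  omega

/-- wedge with a basis vector -/
noncomputable def Wb (b : Ix n d) (f : Finset (Ix n d) × Lat n → ℂ) : Finset (Ix n d) × Lat n → ℂ :=
  fun x => if b ∈ x.1 then sg ℂ (x.1.erase b) b * f (x.1.erase b, x.2) else 0

lemma Wb_mem {P : ℕ} (b : Ix n d) {f : Finset (Ix n d) × Lat n → ℂ} (hf : f ∈ Zc n d P) :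
    Wb b f ∈ Zc n d (P + 1) := by
  constructor
  · rintro ⟨F, u⟩ hx
    simp only [Wb] at hx
    split_ifs at hx with hb
    · obtain ⟨h1, h2⟩ := hf.1 _ (right_ne_zero_of_mul hx)
      simp only at h1 h2 ⊢
      rw [Finset.card_erase_of_mem hb] at h1
      have : 0 < F.card := Finset.card_pos.mpr ⟨b, hb⟩
      exact ⟨by omega, h2⟩
    · exact absurd rfl hx
  · intro F w hw
    have h := anti_sum (K := ℂ) F
      (fun c b' => if b' = b then f ((F.erase c).erase b', w + exd n d c) else 0)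
    have e1 : DT ℂ (exd n d) (Wb b f) (F, w) = ∑ c ∈ F, ∑ b' ∈ F.erase c,
        (sg ℂ (F.erase c) c * sg ℂ ((F.erase c).erase b') b') •
          (if b' = b then f ((F.erase c).erase b', w + exd n d c) else 0) := by
      rw [DT_apply]
      refine Finset.sum_congr rfl fun c _ => ?_
      simp only [Wb, smul_eq_mul, mul_ite, mul_zero, Finset.sum_ite_eq', mul_assoc]
    rw [e1, h, neg_eq_zero]
    apply Finset.sum_eq_zero
    intro b' _
    by_cases hb : b' = b
    · subst hb
      have h2 := hf.2 (F.erase b') w hw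
      rw [DT_apply] at h2
      have e2 : ∑ c ∈ F.erase b', (sg ℂ (F.erase b') b' * sg ℂ ((F.erase b').erase c) c) •
          (if b' = b' then f ((F.erase c).erase b', w + exd n d c) else 0) =
          sg ℂ (F.erase b') b' * ∑ c ∈ F.erase b', sg ℂ ((F.erase b').erase c) c *
            f ((F.erase b').erase c, w + exd n d c) := by
        rw [Finset.mul_sum]
        refine Finset.sum_congr rfl fun c _ => ?_
        rw [if_pos rfl, smul_eq_mul, Finset.erase_right_comm (a := c) (b := b')]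
        ring
      rw [e2, h2, mul_zero]
    · simp [hb]

lemma lead_insert {f : Finset (Ix n d) × Lat n → ℂ} {F : Finset (Ix n d)} {u : Lat n}
    (h : IsLead (key ωB ω) f (F, u)) {b : Ix n d} (hb : b ∉ F) :
    IsLead (key ωB ω) (Wb b f) (insert b F, u) := by
  constructor
  · simp only [Wb, Finset.mem_insert_self, if_true, Finset.erase_insert hb]
    exact mul_ne_zero (sg_ne_zero _ _) h.1
  · rintro ⟨G, w⟩ hy
    simp only [Wb] at hy
    split_ifs at hy with hG
    · have h1 := h.2 _ (right_ne_zero_of_mul hy)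
      have h2 := key_insert (Finset.notMem_erase b G) hb h1
      rwa [Finset.insert_erase hG] at h2
    · exact absurd rfl hy

/-- a block of positions with two species of monomials -/
structure Blk (ωB : Lat n → ℤ) (ω : Ix n d → ℤ) (ρ : Finset (Lat n))
    (S : Fin 2 → Finset (Ix n d)) : Prop where
  neg : ∀ u ∈ ρ, Neg n d u
  disj : Disjoint (S 0) (S 1)
  eqB : ∀ u ∈ ρ, ∀ u' ∈ ρ, ωB u = ωB u'
  eqS : ∀ i, ∀ b ∈ S i, ∀ b' ∈ S i, ω b = ω b'
  lt : ∀ i, ∀ u ∈ ρ, ∀ b ∈ S i, ∀ u' b', Neg n d u' → u' - exd n d b' = u - exd n d b →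
    ¬ (u' ∈ ρ ∧ b' ∈ S i) → ωB u + ω b < ωB u' + ω b'

lemma mon_inj : Function.Injective (fun b : Ix n d => (mon n d b).1) := by
  intro b b' h
  exact (mon n d).injective (Subtype.ext h)

lemma shift_iff {u : Lat n} (hu : ∀ c, u c < 0) (b : Ix n d) (τ : Fin (n + 1) →₀ ℕ) :
    (mon n d b).1 + nt (-1 - u) = τ ↔ u = (-1 - zt τ) + exd n d b := by
  constructor
  · rintro rfl
    funext c
    have := hu c
    simp only [Pi.add_apply, Pi.sub_apply, Pi.neg_apply, Pi.one_apply, zt, exd, Finsupp.add_apply,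
      nt_apply]
    omega
  · intro h
    ext c
    have h1 := congrFun h c
    have := hu c
    simp only [Pi.add_apply, Pi.sub_apply, Pi.neg_apply, Pi.one_apply, zt, exd, Finsupp.add_apply,
      nt_apply] at h1 ⊢
    omega

lemma nt_neg_inj {u u' : Lat n} (hu : ∀ c, u c < 0) (hu' : ∀ c, u' c < 0)
    (h : nt (-1 - u) = nt (-1 - u')) : u = u' := by
  funext c
  have h1 := DFunLike.congr_fun h c
  have := hu c
  have := hu' c
  simp only [Pi.sub_apply, Pi.neg_apply, Pi.one_apply, nt_apply] at h1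
  omega

lemma Wt_erase {F : Finset (Ix n d)} {b : Ix n d} (hb : b ∈ F) (u : Lat n) :
    Wt ωB ω (F.erase b, u) = ωB u + ω b - ∑ c ∈ F, ω c := by
  simp only [Wt]
  rw [← Finset.add_sum_erase F ω hb]
  ring

lemma lead_def {ρ : Finset (Lat n)} {S : Fin 2 → Finset (Ix n d)} (hB : Blk ωB ω ρ S) {P : ℕ}
    {f : Finset (Ix n d) × Lat n → ℂ} (hf : f ∈ Zc n d P) {F0 : Finset (Ix n d)} {u0 : Lat n}
    (hu0 : u0 ∈ ρ) (hl : IsLead (key ωB ω) f (F0, u0)) : ((S 0 ∪ S 1) \ F0).card < ρ.card := by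
  classical
  set W0 := Wt ωB ω (F0, u0) with hW0
  have hmax : ∀ y, f y ≠ 0 → Wt ωB ω y ≤ W0 := by
    intro y hy
    have := key_le_iff.mp (hl.2 y hy)
    omega
  let f0 : Finset (Ix n d) × Lat n → ℂ := fun x => if Wt ωB ω x = W0 then f x else 0
  let g : Finset (Ix n d) → Poly n := fun F => ∑ u ∈ ρ, monomial (nt (-1 - u)) (f0 (F, u))
  let M : Submodule ℂ (Poly n) :=
    Submodule.span ℂ (ρ.image (fun u => (monomial (nt (-1 - u)) (1 : ℂ) : Poly n)) : Finset (Poly n))
  have hM : Module.finrank ℂ M ≤ ρ.card :=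
    (finrank_span_finset_le_card _).trans Finset.card_image_le
  refine vanish S (fun b => (mon n d b).1) mon_inj ρ.card M hM g ?_ ?_ F0 ?_
  · intro F
    refine Submodule.sum_mem _ fun u hu => ?_
    have : (monomial (nt (-1 - u)) (f0 (F, u)) : Poly n) =
        f0 (F, u) • monomial (nt (-1 - u)) (1 : ℂ) := by
      rw [smul_monomial, smul_eq_mul, mul_one]
    rw [this]
    refine Submodule.smul_mem _ _ (Submodule.subset_span ?_)
    simp only [Finset.coe_image, Set.mem_image, Finset.mem_coe]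
    exact ⟨u, hu, rfl⟩
  · intro i F
    ext τ
    set w : Lat n := -1 - zt τ with hw
    have hwneg : ∀ c, w c < 0 := by
      intro c
      simp only [hw, Pi.sub_apply, Pi.neg_apply, Pi.one_apply, zt]
      omega
    have e1 : coeff τ (wedge ℂ (fun b => if b ∈ S i then monomial (mon n d b).1 (1 : ℂ) else 0) g F)
        = ∑ b ∈ F, sg ℂ (F.erase b) b *
          (if b ∈ S i ∧ w + exd n d b ∈ ρ then f0 (F.erase b, w + exd n d b) else 0) := by
      simp only [wedge, coeff_sum]
      refine Finset.sum_congr rfl fun b _ => ?_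
      rw [coeff_smul, smul_eq_mul]
      congr 1
      by_cases hb : b ∈ S i
      · simp only [hb, if_true, true_and, g, Finset.mul_sum, monomial_mul, one_mul, coeff_sum,
          coeff_monomial]
        rw [← Finset.sum_ite_eq' ρ (w + exd n d b) (fun u => f0 (F.erase b, u))]
        refine Finset.sum_congr rfl fun u hu => ?_
        simp only [shift_iff (hB.neg u hu).1, hw]
      · simp [hb]
    rw [e1, coeff_zero]
    by_cases hex : ∃ b1 ∈ F, b1 ∈ S i ∧ w + exd n d b1 ∈ ρ ∧
        Wt ωB ω (F.erase b1, w + exd n d b1) = W0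
    · obtain ⟨b1, hb1, hb1S, hb1ρ, hb1W⟩ := hex
      have hz := hf.2 F w hwneg
      rw [DT_apply] at hz
      refine Eq.trans ?_ hz
      refine Finset.sum_congr rfl fun b hb => ?_
      congr 1
      rw [Wt_erase hb1] at hb1W
      split_ifs with hc
      · simp only [f0]
        rw [if_pos]
        rw [Wt_erase hb, hB.eqB _ hc.2 _ hb1ρ, hB.eqS i _ hc.1 _ hb1S]
        exact hb1W
      · by_contra hne
        have hne' : f (F.erase b, w + exd n d b) ≠ 0 := fun h => hne h.symm
        have h1 := hmax _ hne'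
        have h2 := hB.lt i _ hb1ρ _ hb1S (w + exd n d b) b (hf.1 _ hne').2 (by abel)
          (fun h => hc ⟨h.2, h.1⟩)
        rw [Wt_erase hb] at h1
        omega
    · apply Finset.sum_eq_zero
      intro b hb
      split_ifs with hc
      · simp only [f0]
        rw [if_neg, mul_zero]
        exact fun h => hex ⟨b, hb, hc.1, hc.2, h⟩
      · rw [mul_zero]
  · intro h0
    have h1 := congrArg (coeff (nt (-1 - u0))) h0
    simp only [g, coeff_sum, coeff_monomial, coeff_zero] at h1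
    rw [Finset.sum_eq_single u0] at h1
    · simp only [if_true, f0] at h1
      rw [if_pos rfl] at h1
      exact hl.1 h1
    · intro u hu hne
      rw [if_neg]
      exact fun h => hne (nt_neg_inj (hB.neg u hu).1 (hB.neg u0 hu0).1 h)
    · intro h
      exact absurd hu0 h

theorem mono {D P : ℕ}
    (hdes : ∀ u0, Neg n d u0 → ∃ (ρ : Finset (Lat n)) (S : Fin 2 → Finset (Ix n d)),
      u0 ∈ ρ ∧ Blk ωB ω ρ S ∧ 2 * ρ.card + 2 * D ≤ (S 0).card + (S 1).card)
    (hP : 2 * P ≤ (Mon n d).card + 2 * D + 1) :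
    Module.finrank ℂ (Zc n d P) ≤ Module.finrank ℂ (Zc n d (P + 1)) := by
  classical
  refine (finrank_le_LT (key ωB ω) (cells n d P) _ Zc_supp).trans
    (le_trans ?_ (LT_le_finrank (key ωB ω) key_inj (cells n d (P + 1)) _ Zc_supp))
  have hfib : ∀ Q : ℕ, (LT (key ωB ω) (cells n d Q) (Zc n d Q)).card =
      ∑ u ∈ NegF n d, (univ.filter (fun F : Finset (Ix n d) =>
        (F, u) ∈ LT (key ωB ω) (cells n d Q) (Zc n d Q))).card := by
    intro Q
    rw [Finset.card_eq_sum_card_fiberwise (f := Prod.snd) (t := NegF n d)]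
    · refine Finset.sum_congr rfl fun u _ => ?_
      refine Finset.card_bij (fun x _ => x.1) ?_ ?_ ?_
      · rintro ⟨F, u'⟩ hx
        simp only [Finset.mem_filter] at hx
        obtain ⟨h1, rfl⟩ := hx
        simpa using h1
      · rintro ⟨F, u'⟩ hx ⟨F', u''⟩ hx' h
        simp only [Finset.mem_filter] at hx hx' h
        rw [h, hx.2, hx'.2]
      · intro F hF
        simp only [Finset.mem_filter, Finset.mem_univ, true_and] at hF
        exact ⟨(F, u), Finset.mem_filter.mpr ⟨hF, rfl⟩, rfl⟩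
    · intro x hx
      exact mem_NegF.mpr (mem_cells.mp (mem_LT.mp hx).1).2
  rw [hfib, hfib]
  refine Finset.sum_le_sum fun u hu => ?_
  obtain ⟨ρ, S, hu0, hB, hcard⟩ := hdes u (mem_NegF.mp hu)
  refine count_le _ _ (S 0 ∪ S 1) P ρ.card ?_ ?_ ?_ ?_ ?_ ?_
  · intro F hF
    simp only [Finset.mem_filter, Finset.mem_univ, true_and] at hF
    exact (mem_cells.mp (mem_LT.mp hF).1).1
  · intro F hF
    simp only [Finset.mem_filter, Finset.mem_univ, true_and] at hF
    exact (mem_cells.mp (mem_LT.mp hF).1).1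
  · intro F hF b hb
    simp only [Finset.mem_filter, Finset.mem_univ, true_and] at hF ⊢
    obtain ⟨h1, f, hf, hl⟩ := mem_LT.mp hF
    have h2 := lead_insert hl hb
    exact mem_LT.mpr ⟨Zc_supp _ (Wb_mem b hf) _ h2.1, _, Wb_mem b hf, h2⟩
  · intro F hF
    simp only [Finset.mem_filter, Finset.mem_univ, true_and] at hF
    obtain ⟨h1, f, hf, hl⟩ := mem_LT.mp hF
    exact lead_def hB hf hu0 hl
  · intro F hF
    simp only [Finset.mem_filter, Finset.mem_univ, true_and] at hF
    obtain ⟨h1, f, hf, hl⟩ := mem_LT.mp hF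
    exact lead_def hB hf hu0 hl
  · rw [Finset.card_union_of_disjoint hB.disj, Fintype.card_fin]
    omega

end Pool.Agent.H631Z.Ver
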