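import Mathlib
import Pool.Agent.H631Z.Ver.Mono

/-!
Counting monomials with prescribed partial degrees.
-/

namespace Pool.Agent.H631Z.Ver

open Finset

section split

variable {σ : Type*} [DecidableEq σ]

lemma card_split (A B C : Finset σ) (hAB : Disjoint A B) (hC : C ⊆ B) (s s' : ℕ) (R : ℕ → Prop)
    [DecidablePred R] :
    (((A ∪ B).finsuppAntidiag (s + s')).filter
      (fun β : σ →₀ ℕ => ∑ i ∈ A, β i = s ∧ R (∑ i ∈ C, β i))).card =
      (A.finsuppAntidiag s).card *
        ((B.finsuppAntidiag s').filter (fun β : σ →₀ ℕ => R (∑ i ∈ C, β i))).card := by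
  rw [← Finset.card_product]
  have hA : ∀ i ∈ A, i ∉ B := fun i hi => Finset.disjoint_left.mp hAB hi
  symm
  refine Finset.card_nbij' (fun p => p.1 + p.2)
    (fun β => (β.filter (fun i => i ∈ A), β.filter (fun i => i ∈ B))) ?_ ?_ ?_ ?_
  · rintro ⟨β1, β2⟩ h
    simp only [Finset.coe_product, Set.mem_prod, Finset.mem_coe, Finset.mem_filter,
      Finset.mem_finsuppAntidiag] at h ⊢
    obtain ⟨⟨h1, h2⟩, ⟨h3, h4⟩, h5⟩ := h
    have z1 : ∀ i ∈ B, β1 i = 0 := by
      intro i hi
      by_contra h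
      exact hA i (h2 (Finsupp.mem_support_iff.mpr h)) hi
    have z2 : ∀ i ∈ A, β2 i = 0 := by
      intro i hi
      by_contra h
      exact hA i hi (h4 (Finsupp.mem_support_iff.mpr h))
    have eA : ∑ i ∈ A, (β1 + β2) i = s := by
      rw [← h1]
      exact Finset.sum_congr rfl fun i hi => by simp [z2 i hi]
    have eB : ∑ i ∈ B, (β1 + β2) i = s' := by
      rw [← h3]
      exact Finset.sum_congr rfl fun i hi => by simp [z1 i hi]
    have eC : ∑ i ∈ C, (β1 + β2) i = ∑ i ∈ C, β2 i :=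
      Finset.sum_congr rfl fun i hi => by simp [z1 i (hC hi)]
    refine ⟨⟨?_, ?_⟩, eA, ?_⟩
    · rw [Finset.sum_union hAB, eA, eB]
    · exact Finsupp.support_add.trans (Finset.union_subset_union h2 h4)
    · rw [eC]; exact h5
  · intro β h
    simp only [Finset.coe_product, Set.mem_prod, Finset.mem_coe, Finset.mem_filter,
      Finset.mem_finsuppAntidiag] at h ⊢
    obtain ⟨⟨h1, h2⟩, h3, h4⟩ := h
    have eA : ∑ i ∈ A, (β.filter (fun i => i ∈ A)) i = ∑ i ∈ A, β i :=
      Finset.sum_congr rfl fun i hi => by simp [Finsupp.filter_apply, hi]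
    have eB : ∑ i ∈ B, (β.filter (fun i => i ∈ B)) i = ∑ i ∈ B, β i :=
      Finset.sum_congr rfl fun i hi => by simp [Finsupp.filter_apply, hi]
    have eC : ∑ i ∈ C, (β.filter (fun i => i ∈ B)) i = ∑ i ∈ C, β i :=
      Finset.sum_congr rfl fun i hi => by simp [Finsupp.filter_apply, hC hi]
    rw [Finset.sum_union hAB] at h1
    refine ⟨⟨?_, ?_⟩, ⟨?_, ?_⟩, ?_⟩
    · rw [eA, h3]
    · intro i hi
      rw [Finsupp.support_filter, Finset.mem_filter] at hi
      exact hi.2
    · rw [eB]; omega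
    · intro i hi
      rw [Finsupp.support_filter, Finset.mem_filter] at hi
      exact hi.2
    · rw [eC]; exact h4
  · rintro ⟨β1, β2⟩ h
    simp only [Finset.coe_product, Set.mem_prod, Finset.mem_coe, Finset.mem_filter,
      Finset.mem_finsuppAntidiag] at h
    obtain ⟨⟨h1, h2⟩, ⟨h3, h4⟩, h5⟩ := h
    have z1 : ∀ i, i ∉ A → β1 i = 0 := by
      intro i hi
      by_contra h
      exact hi (h2 (Finsupp.mem_support_iff.mpr h))
    have z2 : ∀ i, i ∉ B → β2 i = 0 := by
      intro i hi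
      by_contra h
      exact hi (h4 (Finsupp.mem_support_iff.mpr h))
    refine Prod.ext ?_ ?_
    · ext i
      simp only [Finsupp.filter_apply, Finsupp.add_apply]
      split_ifs with hi
      · rw [z2 i (hA i hi), add_zero]
      · rw [z1 i hi]
    · ext i
      simp only [Finsupp.filter_apply, Finsupp.add_apply]
      split_ifs with hi
      · rw [z1 i (fun h => hA i h hi), zero_add]
      · rw [z2 i hi]
  · intro β h
    simp only [Finset.mem_coe, Finset.mem_filter, Finset.mem_finsuppAntidiag] at h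
    obtain ⟨⟨h1, h2⟩, h3, h4⟩ := h
    ext i
    simp only [Finsupp.filter_apply, Finsupp.add_apply]
    by_cases hi : i ∈ A
    · simp [hi, hA i hi]
    · by_cases hi' : i ∈ B
      · simp [hi, hi']
      · have : β i = 0 := by
          by_contra h
          rcases Finset.mem_union.mp (h2 (Finsupp.mem_support_iff.mpr h)) with h' | h'
          · exact hi h'
          · exact hi' h'
        simp [hi, hi', this]

/-- the number of monomials of degree `x` in `k + 1` variables -/
def gg (k x : ℕ) : ℕ := (x + k).choose k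

lemma card_fA (A : Finset σ) {k : ℕ} (hA : A.card = k + 1) (s : ℕ) :
    (A.finsuppAntidiag s).card = gg k s := by
  rw [Finset.card_finsuppAntidiag_nat_eq_choose, hA, gg]
  have : k + 1 + s - 1 = s + k := by omega
  rw [this, Nat.choose_symm_add]

end split

lemma card_Mon (n d : ℕ) : (Mon n d).card = (n + d).choose n := by
  rw [Mon, card_fA (k := n) _ (by simp), gg, add_comm]

lemma gg_succ (k x : ℕ) : gg k (x + 1) * (x + 1) = gg k x * (x + k + 1) := by
  unfold gg
  have h := Nat.choose_mul_succ_eq (x + k) k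
  have e : x + 1 + k = x + k + 1 := by ring
  have e' : x + k + 1 - k = x + 1 := by omega
  rw [e, h, e']

lemma gg_pos (k x : ℕ) : 0 < gg k x := Nat.choose_pos (by omega)

lemma gg_mono (k : ℕ) {x y : ℕ} (h : x ≤ y) : gg k x ≤ gg k y :=
  Nat.choose_le_choose k (by omega)

lemma gg_step (k : ℕ) {x y : ℕ} (h : x ≤ y) : gg k (y + 1) * gg k x ≤ gg k y * gg k (x + 1) := by
  have h1 := gg_succ k x
  have h2 := gg_succ k y
  have h3 : 0 < (x + 1) * (y + 1) := by positivity
  refine Nat.le_of_mul_le_mul_right ?_ h3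
  calc gg k (y + 1) * gg k x * ((x + 1) * (y + 1))
      = (gg k (y + 1) * (y + 1)) * gg k x * (x + 1) := by ring
    _ = gg k y * gg k x * ((y + k + 1) * (x + 1)) := by rw [h2]; ring
    _ ≤ gg k y * gg k x * ((x + k + 1) * (y + 1)) := by
        apply Nat.mul_le_mul_left
        nlinarith
    _ = gg k y * (gg k x * (x + k + 1)) * (y + 1) := by ring
    _ = gg k y * gg k (x + 1) * ((x + 1) * (y + 1)) := by rw [← h1]; ring

lemma gg_concave (k : ℕ) {x y : ℕ} (h : x ≤ y) (l : ℕ) :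
    gg k (y + l) * gg k x ≤ gg k y * gg k (x + l) := by
  induction l with
  | zero => simp
  | succ l ih =>
    have h1 := gg_step k (show x + l ≤ y + l by omega)
    have h2 := gg_pos k (x + l)
    refine Nat.le_of_mul_le_mul_right ?_ h2
    calc gg k (y + (l + 1)) * gg k x * gg k (x + l)
        = (gg k (y + l + 1) * gg k (x + l)) * gg k x := by rw [← add_assoc]; ring
      _ ≤ (gg k (y + l) * gg k (x + l + 1)) * gg k x := Nat.mul_le_mul_right _ h1
      _ = (gg k (y + l) * gg k x) * gg k (x + l + 1) := by ring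
      _ ≤ (gg k y * gg k (x + l)) * gg k (x + l + 1) := Nat.mul_le_mul_right _ ih
      _ = gg k y * gg k (x + (l + 1)) * gg k (x + l) := by rw [← add_assoc]; ring

lemma gg_margin {k x d : ℕ} (hk : 1 ≤ k) (h : x + 1 ≤ d) :
    (d + 1) * gg k x ≤ d * gg k (x + 1) := by
  have h1 := gg_succ k x
  have h3 : 0 < x + 1 := by omega
  refine Nat.le_of_mul_le_mul_right ?_ h3
  calc (d + 1) * gg k x * (x + 1) = gg k x * ((d + 1) * (x + 1)) := by ring
    _ ≤ gg k x * (d * (x + k + 1)) := by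
        apply Nat.mul_le_mul_left
        nlinarith
    _ = d * (gg k x * (x + k + 1)) := by ring
    _ = d * gg k (x + 1) * (x + 1) := by rw [← h1]; ring

lemma gg_lower (k x : ℕ) : (x + 1) ^ k ≤ k.factorial * gg k x := by
  rw [gg, ← Nat.ascFactorial_eq_factorial_mul_choose]
  exact Nat.pow_succ_le_ascFactorial _ _

/-- the three groups of six variables -/
def Gp (c : ℕ) : Finset (Fin (17 + 1)) := univ.filter (fun i => i.val / 6 = c)

lemma Gp0_card : (Gp 0).card = 5 + 1 := by decide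
lemma Gp1_card : (Gp 1).card = 5 + 1 := by decide
lemma Gp2_card : (Gp 2).card = 5 + 1 := by decide
lemma Gp12_card : (Gp 1 ∪ Gp 2).card = 11 + 1 := by decide
lemma Gp_univ : Gp 0 ∪ (Gp 1 ∪ Gp 2) = univ := by decide
lemma Gp_disj0 : Disjoint (Gp 0) (Gp 1 ∪ Gp 2) := by decide
lemma Gp_disj1 : Disjoint (Gp 1) (Gp 2) := by decide

lemma cnt2 (s s' : ℕ) :
    ((Mon 17 (s + s')).filter (fun β => ∑ i ∈ Gp 0, β i = s)).card = gg 5 s * gg 11 s' := by
  have h := card_split (Gp 0) (Gp 1 ∪ Gp 2) ∅ Gp_disj0 (Finset.empty_subset _) s s'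
    (fun _ => True)
  rw [Gp_univ, card_fA _ Gp0_card, Finset.filter_true_of_mem (fun _ _ => trivial),
    card_fA _ Gp12_card] at h
  rw [← h, Mon]
  simp

lemma cnt3 (s1 s2 s3 : ℕ) :
    ((Mon 17 (s1 + (s2 + s3))).filter
      (fun β => ∑ i ∈ Gp 0, β i = s1 ∧ ∑ i ∈ Gp 1, β i = s2)).card =
      gg 5 s1 * (gg 5 s2 * gg 5 s3) := by
  have h := card_split (Gp 0) (Gp 1 ∪ Gp 2) (Gp 1) Gp_disj0 Finset.subset_union_left s1 (s2 + s3)
    (fun x => x = s2)
  have h' := card_split (Gp 1) (Gp 2) ∅ Gp_disj1 (Finset.empty_subset _) s2 s3 (fun _ => True)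
  rw [card_fA _ Gp1_card, Finset.filter_true_of_mem (fun _ _ => trivial),
    card_fA _ Gp2_card] at h'
  simp only [and_true] at h'
  rw [Gp_univ, card_fA _ Gp0_card, h'] at h
  rw [← h, Mon]

variable {d : ℕ}

/-- partial degrees of a position -/
def sB (c : ℕ) (u : Lat 17) : ℤ := ∑ i ∈ Gp c, (-1 - u i)

/-- partial degrees of a monomial -/
noncomputable def sV (c : ℕ) (b : Ix 17 d) : ℤ := ∑ i ∈ Gp c, exd 17 d b i

lemma sB_nonneg (c : ℕ) {u : Lat 17} (hu : Neg 17 d u) : 0 ≤ sB c u :=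
  Finset.sum_nonneg fun i _ => by have := hu.1 i; omega

lemma sV_nonneg (c : ℕ) (b : Ix 17 d) : 0 ≤ sV c b :=
  Finset.sum_nonneg fun i _ => exd_nonneg b i

lemma sum_Gp (f : Fin (17 + 1) → ℤ) :
    ∑ i, f i = ∑ i ∈ Gp 0, f i + (∑ i ∈ Gp 1, f i + ∑ i ∈ Gp 2, f i) := by
  rw [← Gp_univ, Finset.sum_union Gp_disj0, Finset.sum_union Gp_disj1]

lemma sB_sum {u : Lat 17} (hu : Neg 17 d u) : sB 0 u + (sB 1 u + sB 2 u) = d - 18 := by
  have h := sum_Gp (fun i => -1 - u i)
  rw [Finset.sum_sub_distrib, hu.2] at h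
  simp only [sB]
  rw [← h]
  simp
  ring

lemma sV_sum (b : Ix 17 d) : sV 0 b + (sV 1 b + sV 2 b) = d := by
  have h := sum_Gp (exd 17 d b)
  rw [exd_sum] at h
  exact h.symm

lemma s_rel (c : ℕ) {u u' : Lat 17} {b b' : Ix 17 d} (h : u' - exd 17 d b' = u - exd 17 d b) :
    sB c u' + sV c b' = sB c u + sV c b := by
  simp only [sB, sV, ← Finset.sum_add_distrib]
  refine Finset.sum_congr rfl fun i _ => ?_
  have := congrFun h i
  simp only [Pi.sub_apply] at this
  omega

lemma card_rho (R : ℤ → ℤ → Prop) [∀ x y, Decidable (R x y)] :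
    ((NegF 17 d).filter (fun u => R (sB 0 u) (sB 1 u))).card ≤
      ((Mon 17 (d - 18)).filter
        (fun β => R ((∑ i ∈ Gp 0, β i : ℕ) : ℤ) ((∑ i ∈ Gp 1, β i : ℕ) : ℤ))).card := by
  refine Finset.card_le_card_of_injOn (fun u => nt (-1 - u)) ?_ ?_
  · intro u hu
    simp only [Finset.coe_filter, Set.mem_ofPred_eq, mem_NegF] at hu ⊢
    have e : ∀ i, ((nt (-1 - u) i : ℕ) : ℤ) = -1 - u i := by
      intro i
      have := hu.1.1 i
      simp only [nt_apply, Pi.sub_apply, Pi.neg_apply, Pi.one_apply]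
      omega
    have e' : ∀ c, ((∑ i ∈ Gp c, nt (-1 - u) i : ℕ) : ℤ) = sB c u := by
      intro c
      push_cast
      exact Finset.sum_congr rfl fun i _ => e i
    refine ⟨?_, ?_⟩
    · rw [mem_Mon]
      have h1 : ((∑ i, nt (-1 - u) i : ℕ) : ℤ) = d - 18 := by
        push_cast
        rw [sum_Gp]
        have := sB_sum hu.1
        simp only [e]
        exact this
      omega
    · rw [e', e']
      exact hu.2
  · intro u hu u' hu' h
    simp only [Finset.coe_filter, Set.mem_ofPred_eq, mem_NegF] at hu hu'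
    exact nt_neg_inj hu.1.1 hu'.1.1 h

lemma card_S (R : ℤ → ℤ → Prop) [∀ x y, Decidable (R x y)] :
    ((univ : Finset (Ix 17 d)).filter (fun b => R (sV 0 b) (sV 1 b))).card =
      ((Mon 17 d).filter
        (fun β => R ((∑ i ∈ Gp 0, β i : ℕ) : ℤ) ((∑ i ∈ Gp 1, β i : ℕ) : ℤ))).card := by
  have e' : ∀ c (b : Ix 17 d), ((∑ i ∈ Gp c, (mon 17 d b).1 i : ℕ) : ℤ) = sV c b := by
    intro c b
    push_cast
    rfl
  refine Finset.card_bij (fun b _ => (mon 17 d b).1) ?_ ?_ ?_
  · intro b hb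
    simp only [Finset.mem_filter, Finset.mem_univ, true_and] at hb
    rw [Finset.mem_filter, e', e']
    exact ⟨(mon 17 d b).2, hb⟩
  · intro b _ b' _ h
    exact mon_inj h
  · intro β hβ
    rw [Finset.mem_filter] at hβ
    refine ⟨(mon 17 d).symm ⟨β, hβ.1⟩, ?_, by simp⟩
    simp only [Finset.mem_filter, Finset.mem_univ, true_and]
    rw [← e', ← e']
    simpa using hβ.2

end Pool.Agent.H631Z.Ver
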