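import Mathlib
import Pool.Agent.H631Z.Ver.Count

/-!
The system of weights and blocks for `ℙ¹⁷`.
-/

namespace Pool.Agent.H631Z.Ver

open Finset

/-- the basic convex weight of a pair -/
def phi (s σ : ℤ) : ℤ := 2 * s ^ 2 + s + (2 * σ ^ 2 - σ)

lemma phi_eq (s σ : ℤ) : phi s σ = (s + σ) ^ 2 + (σ - s) * (σ - s - 1) := by
  unfold phi; ring

lemma mul_pred_nonneg (x : ℤ) : 0 ≤ x * (x - 1) := by
  rcases le_or_gt x 0 with h | h
  · exact mul_nonneg_of_nonpos_of_nonpos h (by omega)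
  · exact mul_nonneg h.le (by omega)

lemma phi_lt1 {s σ s' σ' : ℤ} (h : s' + σ' = s + σ) (he : σ = s ∨ σ = s + 1) (hne : s' ≠ s) :
    phi s σ + 1 ≤ phi s' σ' := by
  rw [phi_eq, phi_eq, h]
  have h1 : (σ - s) * (σ - s - 1) = 0 := by
    rcases he with he | he <;> rw [he] <;> ring
  have h2 : 0 < (σ' - s') * (σ' - s' - 1) := by
    rcases lt_or_gt_of_ne hne with h3 | h3
    · exact mul_pos (by omega) (by omega)
    · exact mul_pos_of_neg_of_neg (by omega) (by omega)
  omega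

lemma phi_lt2 {s σ s' σ' : ℤ} (h : s' + σ' = s + σ) (he : σ ≤ s + 1) (hlt : σ' < σ) :
    phi s σ + 1 ≤ phi s' σ' := by
  rw [phi_eq, phi_eq, h]
  have h1 : 0 < ((σ - s) - (σ' - s')) * (1 - (σ - s) - (σ' - s')) :=
    mul_pos (by omega) (by omega)
  nlinarith

lemma phi_le3 {s σ s' σ' d : ℤ} (h : s' + σ' = s + σ) (he : σ ≤ s + 1) (hd : s ≤ σ + d)
    (hd0 : 0 ≤ d) : phi s σ ≤ phi s' σ' + (d ^ 2 + d) := by
  rw [phi_eq, phi_eq, h]
  have h1 := mul_pred_nonneg (σ' - s')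
  have h2 : 0 ≤ (d + (σ - s)) * (d + 1 - (σ - s)) := mul_nonneg (by omega) (by omega)
  nlinarith

variable {d : ℕ}

/-- weight of a position -/
def wB (d : ℕ) (u : Lat 17) : ℤ :=
  (4 * (d : ℤ) ^ 2 + d + 1) * (2 * sB 0 u ^ 2 + sB 0 u) +
    (if sB 0 u < (d / 2 : ℕ) then 0 else
      2 * (sB 1 u + (sB 0 u - (d / 2 : ℕ))) ^ 2 + (sB 1 u + (sB 0 u - (d / 2 : ℕ))))

/-- weight of a monomial -/
noncomputable def wV (d : ℕ) (b : Ix 17 d) : ℤ :=
  (4 * (d : ℤ) ^ 2 + d + 1) * (2 * sV 0 b ^ 2 - sV 0 b +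
    (if ((d / 2 : ℕ) : ℤ) + 1 < sV 0 b then (d : ℤ) ^ 2 + d + 1 else 0)) +
    (if sV 0 b = (d / 2 : ℕ) + 1 then 2 * sV 1 b ^ 2 - sV 1 b else 0)

lemma q1_nonneg (y : ℤ) : 0 ≤ 2 * y ^ 2 + y := by nlinarith [mul_pred_nonneg (-y), sq_nonneg y]

lemma q2_nonneg (y : ℤ) : 0 ≤ 2 * y ^ 2 - y := by nlinarith [mul_pred_nonneg y, sq_nonneg y]

lemma w_lower (u : Lat 17) (b : Ix 17 d) :
    (4 * (d : ℤ) ^ 2 + d + 1) * (phi (sB 0 u) (sV 0 b) +
      (if ((d / 2 : ℕ) : ℤ) + 1 < sV 0 b then (d : ℤ) ^ 2 + d + 1 else 0)) ≤ wB d u + wV d b := by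
  have h1 : 0 ≤ (if sB 0 u < (d / 2 : ℕ) then 0 else
      2 * (sB 1 u + (sB 0 u - (d / 2 : ℕ))) ^ 2 + (sB 1 u + (sB 0 u - (d / 2 : ℕ))) : ℤ) := by
    split_ifs
    · exact le_rfl
    · exact q1_nonneg _
  have h2 : 0 ≤ (if sV 0 b = (d / 2 : ℕ) + 1 then 2 * sV 1 b ^ 2 - sV 1 b else 0 : ℤ) := by
    split_ifs
    · exact q2_nonneg _
    · exact le_rfl
  unfold wB wV phi
  nlinarith

lemma margin {d h v D : ℕ} (h1 : (d + 1) * h ≤ d * v) (h2 : (d + 1) * D ≤ v) : h + D ≤ v := by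
  have : (d + 1) * (h + D) ≤ (d + 1) * v := by nlinarith
  exact Nat.le_of_mul_le_mul_left this (by omega)

lemma g5_lower {x y : ℕ} (h : x ≤ y + 1) : x ^ 5 ≤ 120 * gg 5 y := by
  have := gg_lower 5 y
  exact (Nat.pow_le_pow_left h 5).trans this

lemma blkA {s : ℕ} (hs : s < d / 2) :
    Blk (wB d) (wV d) ((NegF 17 d).filter (fun u => sB 0 u = s))
      (fun e => univ.filter (fun b => sV 0 b = (s + e.val : ℕ))) where
  neg := fun u hu => mem_NegF.mp (Finset.mem_filter.mp hu).1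
  disj := by
    rw [Finset.disjoint_filter]
    intro b _ h1 h2
    simp only [Fin.val_zero, Fin.val_one] at h1 h2
    omega
  eqB := by
    intro u hu u' hu'
    have h1 := (Finset.mem_filter.mp hu).2
    have h2 := (Finset.mem_filter.mp hu').2
    unfold wB
    rw [if_pos (by omega), if_pos (by omega), h1, h2]
  eqS := by
    intro i b hb b' hb'
    have h1 := (Finset.mem_filter.mp hb).2
    have h2 := (Finset.mem_filter.mp hb').2
    have hi := i.2
    unfold wV
    rw [if_neg (by omega), if_neg (by omega), if_neg (by omega), if_neg (by omega), h1, h2]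
  lt := by
    intro i u hu b hb u' b' hu' hrel hne
    have h1 := (Finset.mem_filter.mp hu).2
    have h2 := (Finset.mem_filter.mp hb).2
    have hi := i.2
    have r0 := s_rel 0 hrel
    have hne' : sB 0 u' ≠ sB 0 u := by
      intro h
      apply hne
      simp only [Finset.mem_filter, mem_NegF, Finset.mem_univ, true_and]
      exact ⟨⟨hu', by omega⟩, by omega⟩
    have h3 := phi_lt1 r0 (by omega) hne'
    have h4 := w_lower u' b'
    have h5 : wB d u + wV d b = (4 * (d : ℤ) ^ 2 + d + 1) * phi (sB 0 u) (sV 0 b) := by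
      unfold wB wV phi
      rw [if_pos (by omega), if_neg (by omega), if_neg (by omega)]
      ring
    have h6 : 0 ≤ (if ((d / 2 : ℕ) : ℤ) + 1 < sV 0 b' then (d : ℤ) ^ 2 + d + 1 else 0) := by
      split_ifs
      · positivity
      · exact le_rfl
    have hM : (0 : ℤ) < 4 * (d : ℤ) ^ 2 + d + 1 := by positivity
    rw [h5]
    nlinarith

lemma blkB {s1 s2 : ℕ} (hs : d / 2 ≤ s1) :
    Blk (wB d) (wV d) ((NegF 17 d).filter (fun u => sB 0 u = s1 ∧ sB 1 u = s2))
      (fun e => univ.filter (fun b => sV 0 b = (d / 2 + 1 : ℕ) ∧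
        sV 1 b = (s2 + (s1 - d / 2) + e.val : ℕ))) where
  neg := fun u hu => mem_NegF.mp (Finset.mem_filter.mp hu).1
  disj := by
    rw [Finset.disjoint_filter]
    intro b _ h1 h2
    simp only [Fin.val_zero, Fin.val_one] at h1 h2
    omega
  eqB := by
    intro u hu u' hu'
    have h1 := (Finset.mem_filter.mp hu).2
    have h2 := (Finset.mem_filter.mp hu').2
    unfold wB
    rw [h1.1, h1.2, h2.1, h2.2]
  eqS := by
    intro i b hb b' hb'
    have h1 := (Finset.mem_filter.mp hb).2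
    have h2 := (Finset.mem_filter.mp hb').2
    unfold wV
    rw [h1.1, h1.2, h2.1, h2.2]
  lt := by
    intro i u hu b hb u' b' hu' hrel hne
    have hu0 := mem_NegF.mp (Finset.mem_filter.mp hu).1
    have h1 := (Finset.mem_filter.mp hu).2
    have h2 := (Finset.mem_filter.mp hb).2
    have hi := i.2
    have r0 := s_rel 0 hrel
    have r1 := s_rel 1 hrel
    have hM : (0 : ℤ) < 4 * (d : ℤ) ^ 2 + d + 1 := by positivity
    set y : ℤ := sB 1 u + (sB 0 u - (d / 2 : ℕ)) with hy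
    have h5 : wB d u + wV d b = (4 * (d : ℤ) ^ 2 + d + 1) * phi (sB 0 u) (sV 0 b) +
        phi y (sV 1 b) := by
      unfold wB wV phi
      rw [if_neg (by omega), if_neg (by omega), if_pos (by omega)]
      ring
    have hb0 := sV_nonneg 0 b
    have hb2 := sV_nonneg 2 b
    have hbs := sV_sum b
    have hy0 : 0 ≤ y := by omega
    have hy1 : y ≤ sV 1 b := by omega
    have hy2 : sV 1 b ≤ d := by omega
    have hsec : phi y (sV 1 b) ≤ 4 * (d : ℤ) ^ 2 + d := by
      unfold phi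
      nlinarith
    rcases lt_trichotomy (sV 0 b') (sV 0 b) with hc | hc | hc
    · have h3 := phi_lt2 r0 (by omega) hc
      have h4 := w_lower u' b'
      rw [if_neg (by omega)] at h4
      rw [h5]
      nlinarith
    · have hne' : sB 1 u' ≠ sB 1 u := by
        intro h
        apply hne
        simp only [Finset.mem_filter, mem_NegF, Finset.mem_univ, true_and]
        exact ⟨⟨hu', by omega, by omega⟩, by omega, by omega⟩
      have e0 : sB 0 u' = sB 0 u := by omega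
      have h6 : wB d u' + wV d b' = (4 * (d : ℤ) ^ 2 + d + 1) * phi (sB 0 u) (sV 0 b) +
          phi (sB 1 u' + (sB 0 u - (d / 2 : ℕ))) (sV 1 b') := by
        unfold wB wV phi
        rw [if_neg (by omega), if_neg (by omega), if_pos (by omega), e0, hc]
        ring
      have h3 := phi_lt1 (s := y) (σ := sV 1 b) (s' := sB 1 u' + (sB 0 u - (d / 2 : ℕ)))
        (σ' := sV 1 b') (by omega) (by omega) (by omega)
      rw [h5, h6]
      omega
    · have hu1 := sB_nonneg 1 hu0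
      have hu2 := sB_nonneg 2 hu0
      have hus := sB_sum hu0
      have h3 := phi_le3 (d := d) r0 (by omega) (by omega) (by omega)
      have h4 := w_lower u' b'
      rw [if_pos (by omega)] at h4
      rw [h5]
      nlinarith

theorem design {D : ℕ} (hd : 12000 ≤ d) (hD : 14400 * ((d + 1) * D) ≤ (d / 4) ^ 10)
    (u0 : Lat 17) (hu0 : Neg 17 d u0) :
    ∃ (ρ : Finset (Lat 17)) (S : Fin 2 → Finset (Ix 17 d)),
      u0 ∈ ρ ∧ Blk (wB d) (wV d) ρ S ∧ 2 * ρ.card + 2 * D ≤ (S 0).card + (S 1).card := by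
  have n0 := sB_nonneg 0 hu0
  have n1 := sB_nonneg 1 hu0
  have n2 := sB_nonneg 2 hu0
  have ns := sB_sum hu0
  obtain ⟨s1, hs1⟩ := Int.eq_ofNat_of_zero_le n0
  obtain ⟨s2, hs2⟩ := Int.eq_ofNat_of_zero_le n1
  obtain ⟨s3, hs3⟩ := Int.eq_ofNat_of_zero_le n2
  have hsum : s1 + (s2 + s3) = d - 18 := by omega
  by_cases hs : s1 < d / 2
  · refine ⟨_, _, ?_, blkA hs, ?_⟩
    · simp only [Finset.mem_filter, mem_NegF]
      exact ⟨hu0, hs1⟩
    have hρ : ((NegF 17 d).filter (fun u => sB 0 u = s1)).card ≤ gg 5 s1 * gg 11 (s2 + s3) := by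
      have h := card_rho (d := d) (fun x _ => x = s1)
      simp only [Nat.cast_inj] at h
      rw [← hsum, cnt2] at h
      exact h
    have hS : ∀ e : ℕ, e ≤ 1 → ((NegF 17 d).filter (fun u => sB 0 u = s1)).card + D ≤
        ((univ : Finset (Ix 17 d)).filter (fun b => sV 0 b = (s1 + e : ℕ))).card := by
      intro e he
      have h := card_S (d := d) (fun x _ => x = (s1 + e : ℕ))
      simp only [Nat.cast_inj] at h
      have e1 : d = (s1 + e) + (d - (s1 + e)) := by omega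
      have h' := cnt2 (s1 + e) (d - (s1 + e))
      rw [← e1] at h'
      rw [h, h']
      refine margin (d := d) ?_ ?_
      · calc (d + 1) * ((NegF 17 d).filter (fun u => sB 0 u = s1)).card
            ≤ (d + 1) * (gg 5 s1 * gg 11 (s2 + s3)) := Nat.mul_le_mul_left _ hρ
          _ = gg 5 s1 * ((d + 1) * gg 11 (s2 + s3)) := by ring
          _ ≤ gg 5 (s1 + e) * (d * gg 11 (s2 + s3 + 1)) :=
              Nat.mul_le_mul (gg_mono 5 (by omega)) (gg_margin (by norm_num) (by omega))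
          _ ≤ gg 5 (s1 + e) * (d * gg 11 (d - (s1 + e))) :=
              Nat.mul_le_mul_left _ (Nat.mul_le_mul_left _ (gg_mono 11 (by omega)))
          _ = d * (gg 5 (s1 + e) * gg 11 (d - (s1 + e))) := by ring
      · have h1 := gg_lower 11 (d - (s1 + e))
        have h2 : (d / 4) ^ 11 ≤ (d - (s1 + e) + 1) ^ 11 := Nat.pow_le_pow_left (by omega) 11
        have h3 := gg_pos 5 (s1 + e)
        have h4 : gg 11 (d - (s1 + e)) ≤ gg 5 (s1 + e) * gg 11 (d - (s1 + e)) :=
          Nat.le_mul_of_pos_left _ h3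
        have h5 : 2772 * (d / 4) ^ 10 ≤ (d / 4) ^ 11 := by
          rw [pow_succ (d / 4) 10, mul_comm]
          exact Nat.mul_le_mul_left _ (by omega)
        have h6 : Nat.factorial 11 = 39916800 := by decide
        rw [h6] at h1
        omega
    have a0 := hS 0 (by omega)
    have a1 := hS 1 (by omega)
    simp only [Fin.val_zero, Fin.val_one]
    omega
  · have hs' : d / 2 ≤ s1 := not_lt.mp hs
    refine ⟨_, _, ?_, blkB (s2 := s2) hs', ?_⟩
    · simp only [Finset.mem_filter, mem_NegF]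
      exact ⟨hu0, hs1, hs2⟩
    have hρ : ((NegF 17 d).filter (fun u => sB 0 u = s1 ∧ sB 1 u = s2)).card ≤
        gg 5 s1 * (gg 5 s2 * gg 5 s3) := by
      have h := card_rho (d := d) (fun x y => x = s1 ∧ y = s2)
      simp only [Nat.cast_inj] at h
      rw [← hsum, cnt3] at h
      exact h
    have hS : ∀ e : ℕ, e ≤ 1 →
        ((NegF 17 d).filter (fun u => sB 0 u = s1 ∧ sB 1 u = s2)).card + D ≤
        ((univ : Finset (Ix 17 d)).filter (fun b => sV 0 b = (d / 2 + 1 : ℕ) ∧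
          sV 1 b = (s2 + (s1 - d / 2) + e : ℕ))).card := by
      intro e he
      have h := card_S (d := d) (fun x y => x = (d / 2 + 1 : ℕ) ∧ y = (s2 + (s1 - d / 2) + e : ℕ))
      simp only [Nat.cast_inj] at h
      have e1 : d = (d / 2 + 1) + ((s2 + (s1 - d / 2) + e) + (s3 + 17 - e)) := by omega
      have h' := cnt3 (d / 2 + 1) (s2 + (s1 - d / 2) + e) (s3 + 17 - e)
      rw [← e1] at h'
      rw [h, h']
      refine margin (d := d) ?_ ?_
      · have c1 := gg_concave 5 (x := s2) (y := d / 2) (by omega) (s1 - d / 2)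
        have e2 : d / 2 + (s1 - d / 2) = s1 := by omega
        rw [e2] at c1
        calc (d + 1) * ((NegF 17 d).filter (fun u => sB 0 u = s1 ∧ sB 1 u = s2)).card
            ≤ (d + 1) * (gg 5 s1 * (gg 5 s2 * gg 5 s3)) := Nat.mul_le_mul_left _ hρ
          _ = (gg 5 s1 * gg 5 s2) * ((d + 1) * gg 5 s3) := by ring
          _ ≤ (gg 5 (d / 2) * gg 5 (s2 + (s1 - d / 2))) * (d * gg 5 (s3 + 1)) :=
              Nat.mul_le_mul c1 (gg_margin (by norm_num) (by omega))
          _ ≤ (gg 5 (d / 2 + 1) * gg 5 (s2 + (s1 - d / 2) + e)) * (d * gg 5 (s3 + 17 - e)) :=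
              Nat.mul_le_mul (Nat.mul_le_mul (gg_mono 5 (by omega)) (gg_mono 5 (by omega)))
                (Nat.mul_le_mul_left _ (gg_mono 5 (by omega)))
          _ = d * (gg 5 (d / 2 + 1) * (gg 5 (s2 + (s1 - d / 2) + e) * gg 5 (s3 + 17 - e))) := by
              ring
      · have h1 : (d / 4) ^ 5 ≤ 120 * gg 5 (d / 2 + 1) := g5_lower (by omega)
        have h2 : (d / 4) ^ 5 ≤ 120 * (gg 5 (s2 + (s1 - d / 2) + e) * gg 5 (s3 + 17 - e)) := by
          by_cases hc : d / 4 ≤ s3 + 17 - e + 1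
          · exact (g5_lower hc).trans
              (Nat.mul_le_mul_left _ (Nat.le_mul_of_pos_left _ (gg_pos _ _)))
          · exact (g5_lower (y := s2 + (s1 - d / 2) + e) (by omega)).trans
              (Nat.mul_le_mul_left _ (Nat.le_mul_of_pos_right _ (gg_pos _ _)))
        have h3 := Nat.mul_le_mul h1 h2
        have h4 : (d / 4) ^ 5 * (d / 4) ^ 5 = (d / 4) ^ 10 := by ring
        have h5 : 120 * gg 5 (d / 2 + 1) *
            (120 * (gg 5 (s2 + (s1 - d / 2) + e) * gg 5 (s3 + 17 - e))) =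
            14400 * (gg 5 (d / 2 + 1) * (gg 5 (s2 + (s1 - d / 2) + e) * gg 5 (s3 + 17 - e))) := by
          ring
        rw [h4, h5] at h3
        omega
    have a0 := hS 0 (by omega)
    have a1 := hS 1 (by omega)
    simp only [Fin.val_zero, Fin.val_one]
    omega

/-- the natural number `r_d` -/
def rN (d : ℕ) : ℕ := (17 + d).choose 17 - 1

lemma big {d : ℕ} (hd : 10 ^ 30 ≤ d) :
    14400 * ((d + 1) * (Nat.sqrt (rN d) + 18)) ≤ (d / 4) ^ 10 := by
  set x := d / 4 with hx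
  set i := Nat.sqrt (rN d) with hi
  have h1 : i ^ 2 ≤ (8 * x) ^ 17 := by
    calc i ^ 2 ≤ rN d := Nat.sqrt_le' _
      _ ≤ (17 + d).choose 17 := Nat.sub_le _ _
      _ ≤ (17 + d) ^ 17 := Nat.choose_le_pow _ _
      _ ≤ (8 * x) ^ 17 := Nat.pow_le_pow_left (by omega) _
  have h2 : 18 ^ 2 ≤ (8 * x) ^ 17 := by
    calc 18 ^ 2 ≤ 8 ^ 17 := by norm_num
      _ ≤ (8 * x) ^ 17 := Nat.pow_le_pow_left (by omega) _
  have h3 : (i + 18) ^ 2 ≤ 4 * (8 * x) ^ 17 := by
    have : (i + 18) ^ 2 ≤ 2 * i ^ 2 + 2 * 18 ^ 2 := by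
      zify
      nlinarith [sq_nonneg ((i : ℤ) - 18)]
    omega
  have h4 : (14400 * ((d + 1) * (i + 18))) ^ 2 ≤ (x ^ 10) ^ 2 := by
    calc (14400 * ((d + 1) * (i + 18))) ^ 2 = 14400 ^ 2 * (d + 1) ^ 2 * (i + 18) ^ 2 := by ring
      _ ≤ 14400 ^ 2 * (8 * x) ^ 2 * (4 * (8 * x) ^ 17) :=
          Nat.mul_le_mul (Nat.mul_le_mul_left _ (Nat.pow_le_pow_left (by omega) _)) h3
      _ = (14400 ^ 2 * 4 * 8 ^ 19) * x ^ 19 := by ring
      _ ≤ x * x ^ 19 := Nat.mul_le_mul_right _ (by norm_num; omega)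
      _ = (x ^ 10) ^ 2 := by ring
  exact (Nat.pow_le_pow_iff_left (by norm_num)).mp h4

theorem kpq_mono {d : ℕ} (hd : 10 ^ 30 ≤ d) (j : ℕ) (hj : j ≤ Nat.sqrt (rN d)) :
    kpq 17 d (rN d / 2) 17 ≤ kpq 17 d (rN d / 2 + j) 17 := by
  induction j with
  | zero => exact le_rfl
  | succ j ih =>
    refine (ih (by omega)).trans ?_
    have e1 := kpq_eq 17 d (rN d / 2 + j)
    have e2 := kpq_eq 17 d (rN d / 2 + (j + 1))
    simp only [Nat.cast_ofNat] at e1 e2
    rw [e1, e2]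
    have e3 : rN d / 2 + (j + 1) + (17 + 1) = rN d / 2 + j + (17 + 1) + 1 := by ring
    rw [e3]
    refine mono (design (by omega) (big hd)) ?_
    rw [card_Mon]
    have : rN d ≤ (17 + d).choose 17 := Nat.sub_le _ _
    omega

end Pool.Agent.H631Z.Ver
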