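import Mathlib
import Pool.Agent.H631Z.Ver.Design

/-!
The Betti numbers `k_{p,17}(ℙ¹⁷, 𝒪(d))` are not normally distributed around `r_d / 2`.
-/

namespace Pool.Agent.H631Z.Ver

open Filter Topology Asymptotics

lemma rN_cast (d : ℕ) : (rN d : ℝ) = rr 17 d := by
  have h : 1 ≤ (17 + d).choose 17 := Nat.choose_pos (by omega)
  rw [rN, rr, Nat.cast_sub h, Nat.cast_one]

lemma rN_ge (d : ℕ) : d ≤ rN d := by
  have h : ∀ d : ℕ, d + 1 ≤ (17 + d).choose 17 := by
    intro d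
    induction d with
    | zero => simp
    | succ d ih =>
      have h1 : (17 + (d + 1)).choose 17 = (17 + d).choose 16 + (17 + d).choose 17 := by
        rw [← add_assoc]
        exact Nat.choose_succ_succ' _ _
      have h2 : 0 < (17 + d).choose 16 := Nat.choose_pos (by omega)
      omega
  have := h d
  unfold rN
  omega

lemma tendsto_sqrt_rr : Tendsto (fun d => Real.sqrt (rr 17 d)) atTop atTop := by
  refine Real.tendsto_sqrt_atTop.comp ?_
  refine tendsto_atTop_mono (fun d => ?_) tendsto_natCast_atTop_atTop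
  rw [← rN_cast]
  exact_mod_cast rN_ge d

lemma littleo_of_bdd {g : ℕ → ℝ} (hg : ∀ d, |g d| ≤ 2) :
    g =o[atTop] (fun d => Real.sqrt (rr 17 d)) := by
  have h1 : g =O[atTop] (fun _ : ℕ => (1 : ℝ)) := by
    refine IsBigO.of_bound 2 (Eventually.of_forall fun d => ?_)
    simpa using hg d
  refine h1.trans_isLittleO ?_
  rw [isLittleO_const_left]
  right
  exact tendsto_norm_atTop_atTop.comp tendsto_sqrt_rr

lemma half_bound (d : ℕ) : |((rN d / 2 : ℕ) : ℝ) - rr 17 d / 2| ≤ 1 := by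
  rw [← rN_cast, abs_le]
  have h1 : ((2 * (rN d / 2) : ℕ) : ℝ) ≤ rN d := by exact_mod_cast (by omega)
  have h2 : (rN d : ℝ) ≤ ((2 * (rN d / 2) + 1 : ℕ) : ℝ) := by exact_mod_cast (by omega)
  push_cast at h1 h2
  constructor <;> linarith

lemma sqrt_bound (d : ℕ) : |((Nat.sqrt (rN d) : ℕ) : ℝ) - Real.sqrt (rr 17 d)| ≤ 1 := by
  rw [← rN_cast, abs_le]
  have h1 := Real.nat_sqrt_le_real_sqrt (a := rN d)
  have h2 := Real.real_sqrt_le_nat_sqrt_succ (a := rN d)
  constructor <;> linarith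

theorem not_normal : ¬ ∃ F : ℕ → ℝ, ∀ (a : ℝ) (p : ℕ → ℕ),
    (fun d => (p d : ℝ) - (rr 17 d / 2 + a * Real.sqrt (rr 17 d) / 2)) =o[atTop]
      (fun d => Real.sqrt (rr 17 d)) →
    Tendsto (fun d => F d * (kpq 17 d (p d) 17 : ℝ)) atTop (𝓝 (Real.exp (-a ^ 2 / 2))) := by
  rintro ⟨F, hF⟩
  have h0 := hF 0 (fun d => rN d / 2) (littleo_of_bdd fun d => by
    have := half_bound d
    simp only [zero_mul, zero_div, add_zero]
    linarith)
  have h1 := hF 2 (fun d => rN d / 2 + Nat.sqrt (rN d)) (littleo_of_bdd fun d => by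
    have a1 := abs_le.mp (half_bound d)
    have a2 := abs_le.mp (sqrt_bound d)
    rw [Nat.cast_add, abs_le]
    constructor <;> linarith [a1.1, a1.2, a2.1, a2.2])
  have e0 : Real.exp (-(0 : ℝ) ^ 2 / 2) = 1 := by simp
  have e1 : Real.exp (-(2 : ℝ) ^ 2 / 2) = Real.exp (-2) := by norm_num
  rw [e0] at h0
  rw [e1] at h1
  have hpos : ∀ᶠ d in atTop, (1 / 2 : ℝ) < F d * (kpq 17 d (rN d / 2) 17 : ℝ) :=
    h0.eventually (lt_mem_nhds (by norm_num))
  have hle : ∀ᶠ d in atTop, F d * (kpq 17 d (rN d / 2) 17 : ℝ) ≤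
      F d * (kpq 17 d (rN d / 2 + Nat.sqrt (rN d)) 17 : ℝ) := by
    filter_upwards [hpos, eventually_ge_atTop (10 ^ 30)] with d h2 hd
    have hFd : 0 ≤ F d := by
      by_contra hneg
      have : F d * (kpq 17 d (rN d / 2) 17 : ℝ) ≤ 0 :=
        mul_nonpos_of_nonpos_of_nonneg (le_of_lt (not_le.mp hneg)) (Nat.cast_nonneg _)
      linarith
    refine mul_le_mul_of_nonneg_left ?_ hFd
    exact_mod_cast kpq_mono hd _ le_rfl
  have h3 := le_of_tendsto_of_tendsto h0 h1 hle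
  have h4 : Real.exp (-2) < 1 := Real.exp_lt_one_iff.mpr (by norm_num)
  linarith

end Pool.Agent.H631Z.Ver
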